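import Mathlib

/-!
# Embeddings of lattices which are adapted to independent vectors
-/

set_option autoImplicit false
set_option maxHeartbeats 400000

namespace Pool.Agent.V5helper52.FW

lemma sumExtend_inl {ι V : Type} [AddCommGroup V] [Module ℚ V] {v : ι → V}
    (hs : LinearIndependent ℚ v) (i : ι) : Module.Basis.sumExtend hs (Sum.inl i) = v i := by
  classical
  simp [Module.Basis.sumExtend]
  rfl

/-- common denominators -/
lemma exists_den {ι : Type} [Finite ι] (q : ι → ℚ) : ∃ (E : ℕ), 0 < E ∧ ∃ z : ι → ℤ,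
    ∀ i, (z i : ℚ) = E * q i := by
  classical
  have := Fintype.ofFinite ι
  refine ⟨∏ i, (q i).den, Finset.prod_pos fun i _ => (q i).den_pos, ?_⟩
  have h : ∀ i, ∃ z : ℤ, (z : ℚ) = (∏ i, (q i).den : ℕ) * q i := by
    intro i
    obtain ⟨d, hd⟩ := Finset.dvd_prod_of_mem (fun i => (q i).den) (Finset.mem_univ i)
    refine ⟨(q i).num * d, ?_⟩
    rw [hd]
    push_cast
    have h1 : ((q i).den : ℚ) * q i = (q i).num := Rat.den_mul_eq_num (q i)
    rw [mul_right_comm, h1]
  choose z hz using h
  exact ⟨z, hz⟩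

/-- the rational vector -/
def qv {T : Type} (m : T → ℤ) : T → ℚ := fun t => m t

/-- An embedding of `ℤ ^ T` as a subgroup of finite index, which maps given independent vectors to
multiples of the first basis vectors. -/
theorem exists_emb {T : Type} [Fintype T] [DecidableEq T] {ρ : ℕ} (v : Fin ρ → (T → ℤ))
    (hv : LinearIndependent ℚ fun i => qv (v i)) :
    ∃ (β : Type) (_ : Finite β) (E : ℕ) (j : (T → ℤ) →+ (Fin ρ ⊕ β → ℤ)), 0 < E ∧
      Function.Injective j ∧ Finite ((Fin ρ ⊕ β → ℤ) ⧸ j.range) ∧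
      (∀ i b, j (v i) (Sum.inr b) = 0) ∧ (∀ i i', j (v i) (Sum.inl i') = if i = i' then (E : ℤ) else 0) ∧
      ∀ m : T → ℤ, qv m ∈ Submodule.span ℚ (Set.range fun i => qv (v i)) → ∀ b, j m (Sum.inr b) = 0 := by
  classical
  let V := T → ℚ
  let β := Module.Basis.sumExtendIndex hv
  let b : Module.Basis (Fin ρ ⊕ β) ℚ V := Module.Basis.sumExtend hv
  have hb : ∀ i, b (Sum.inl i) = qv (v i) := fun i => sumExtend_inl hv i
  have hfin : Finite (Fin ρ ⊕ β) := Module.Finite.finite_basis b
  have hβ : Finite β := Finite.of_injective (Sum.inr : β → Fin ρ ⊕ β) Sum.inr_injective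
  obtain ⟨E, hE, z, hz⟩ := exists_den (fun p : T × (Fin ρ ⊕ β) => b.repr (Pi.single p.1 1) p.2)
  let j : (T → ℤ) →+ (Fin ρ ⊕ β → ℤ) :=
    { toFun := fun m x => ∑ t, m t * z (t, x)
      map_zero' := by
        funext x
        simp
      map_add' := fun m m' => by
        funext x
        rw [Pi.add_apply, ← Finset.sum_add_distrib]
        exact Finset.sum_congr rfl fun t _ => by rw [Pi.add_apply, add_mul] }
  have hj : ∀ m x, ((j m x : ℤ) : ℚ) = E * b.repr (qv m) x := by
    intro m x
    have h1 : qv m = ∑ t, (m t : ℚ) • (Pi.single t 1 : V) := by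
      funext t
      rw [Finset.sum_apply, Finset.sum_eq_single t]
      · rw [Pi.smul_apply, Pi.single_eq_same, smul_eq_mul, mul_one]
        rfl
      · intro t' _ h
        rw [Pi.smul_apply, Pi.single_eq_of_ne h.symm, smul_zero]
      · exact fun h => absurd (Finset.mem_univ _) h
    have h2 : ((j m x : ℤ) : ℚ) = ∑ t, (m t : ℚ) * (z (t, x) : ℚ) := by
      change (((∑ t, m t * z (t, x) : ℤ)) : ℚ) = _
      push_cast
      rfl
    rw [h2, h1, map_sum, Finsupp.finsetSum_apply, Finset.mul_sum]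
    refine Finset.sum_congr rfl fun t _ => ?_
    rw [hz, map_smul, Finsupp.smul_apply, smul_eq_mul]
    ring
  have hE0 : (E : ℚ) ≠ 0 := by exact_mod_cast hE.ne'
  have hrepr : ∀ i, b.repr (qv (v i)) = Finsupp.single (Sum.inl i) 1 := by
    intro i
    rw [← hb, b.repr_self]
  refine ⟨β, hβ, E, j, hE, ?_, ?_, ?_, ?_, ?_⟩
  · rw [injective_iff_map_eq_zero]
    intro m hm
    have h1 : b.repr (qv m) = 0 := by
      ext x
      have h2 := hj m x
      rw [hm] at h2
      have h3 : (0 : ℚ) = E * b.repr (qv m) x := by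
        rw [← h2]
        simp
      exact (mul_eq_zero.mp h3.symm).resolve_left hE0
    have h2 : qv m = 0 := b.repr.map_eq_zero_iff.mp h1
    funext t
    have h3 := congrFun h2 t
    have h4 : ((m t : ℤ) : ℚ) = 0 := h3
    exact_mod_cast h4
  · -- finite index
    obtain ⟨D, hD, w, hw⟩ := exists_den (fun p : (Fin ρ ⊕ β) × T => b p.1 p.2)
    have h1 : ∀ x, j (fun t => w (x, t)) = (E * D : ℕ) • (Pi.single x 1 : Fin ρ ⊕ β → ℤ) := by
      intro x
      funext y
      have h2 : qv (fun t => w (x, t)) = (D : ℚ) • b x := by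
        funext t
        change ((w (x, t) : ℤ) : ℚ) = _
        rw [hw, Pi.smul_apply, smul_eq_mul]
      have h3 := hj (fun t => w (x, t)) y
      rw [h2, map_smul, b.repr_self, Finsupp.smul_apply, Finsupp.single_apply, smul_eq_mul] at h3
      have h4 : ((j (fun t => w (x, t)) y : ℤ) : ℚ) =
          (((E * D : ℕ) • (Pi.single x 1 : Fin ρ ⊕ β → ℤ)) y : ℤ) := by
        rw [h3, Pi.smul_apply, Pi.single_apply]
        by_cases h : x = y
        · rw [if_pos h, if_pos h.symm]
          simp
        · rw [if_neg h, if_neg (Ne.symm h)]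
          simp
      exact_mod_cast h4
    have := Fintype.ofFinite (Fin ρ ⊕ β)
    have h2 : ∀ l : Fin ρ ⊕ β → ℤ, (E * D) • l ∈ j.range := by
      intro l
      have h3 : (E * D) • l = ∑ x, l x • ((E * D : ℕ) • (Pi.single x 1 : Fin ρ ⊕ β → ℤ)) := by
        funext y
        rw [Finset.sum_apply, Finset.sum_eq_single y]
        · rw [Pi.smul_apply, Pi.smul_apply, Pi.smul_apply, Pi.single_eq_same]
          simp [mul_comm]
        · intro x _ h
          rw [Pi.smul_apply, Pi.smul_apply, Pi.single_eq_of_ne h.symm, smul_zero, smul_zero]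
        · exact fun h => absurd (Finset.mem_univ _) h
      rw [h3]
      refine AddSubgroup.sum_mem _ fun x _ => AddSubgroup.zsmul_mem _ ?_ _
      rw [← h1]
      exact ⟨_, rfl⟩
    have hfg : Module.Finite ℤ ((Fin ρ ⊕ β → ℤ) ⧸ j.range) :=
      Module.Finite.of_surjective (AddMonoidHom.toIntLinearMap (QuotientAddGroup.mk' j.range))
        (QuotientAddGroup.mk'_surjective _)
    refine Module.finite_of_fg_torsion _ ?_
    intro x
    obtain ⟨l, rfl⟩ := QuotientAddGroup.mk'_surjective _ x
    have hne : ((E * D : ℕ) : ℤ) ≠ 0 := by exact_mod_cast (Nat.mul_pos hE hD).ne'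
    refine ⟨⟨((E * D : ℕ) : ℤ), mem_nonZeroDivisors_of_ne_zero hne⟩, ?_⟩
    change ((E * D : ℕ) : ℤ) • (QuotientAddGroup.mk' j.range l) = 0
    rw [natCast_zsmul, ← map_nsmul]
    exact (QuotientAddGroup.eq_zero_iff _).mpr (h2 l)
  · intro i y
    have h1 := hj (v i) (Sum.inr y)
    rw [hrepr, Finsupp.single_apply, if_neg (by simp), mul_zero] at h1
    exact_mod_cast h1
  · intro i i'
    have h1 := hj (v i) (Sum.inl i')
    rw [hrepr, Finsupp.single_apply] at h1
    by_cases h : i = i'
    · rw [if_pos (by rw [h]), mul_one] at h1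
      rw [if_pos h]
      exact_mod_cast h1
    · rw [if_neg (by simpa using h), mul_zero] at h1
      rw [if_neg h]
      exact_mod_cast h1
  · intro m hm y
    have h1 := hj m (Sum.inr y)
    have h2 : b.repr (qv m) (Sum.inr y) = 0 := by
      have h3 : Submodule.span ℚ (Set.range fun i => qv (v i)) ≤
          LinearMap.ker ((Finsupp.lapply (Sum.inr y)).comp (b.repr : V →ₗ[ℚ] (Fin ρ ⊕ β →₀ ℚ))) := by
        rw [Submodule.span_le]
        rintro _ ⟨i, rfl⟩
        change b.repr (qv (v i)) (Sum.inr y) = 0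
        rw [hrepr, Finsupp.single_apply, if_neg (by simp)]
      exact h3 hm
    rw [h2, mul_zero] at h1
    exact_mod_cast h1

end Pool.Agent.V5helper52.FW
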