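import Pool.Agent.V5helper52.FW.Lat
import Pool.Agent.V5helper52.FW.Emb

/-!
# Splitting off a torus
-/

set_option autoImplicit false
set_option maxHeartbeats 400000

open CategoryTheory AlgebraicGeometry Pool.Agent.Y116.UV Pool.Agent.V5helper52.SF
  Pool.Agent.V5helper52.TR

namespace Pool.Agent.V5helper52.FW

section

variable {k : Type} [Field k] {A G : Type} [CommRing A] [Algebra k A] [AddCommGroup G]

/-- quotients of group algebras -/
lemma quotC (J : Ideal A) : Nonempty ((AddMonoidAlgebra A G ⧸
    J.map (algebraMap A (AddMonoidAlgebra A G))) ≃ₐ[k] AddMonoidAlgebra (A ⧸ J) G) := by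
  classical
  let π : AddMonoidAlgebra A G →ₐ[k] AddMonoidAlgebra (A ⧸ J) G :=
    { AddMonoidAlgebra.mapRingHom G (Ideal.Quotient.mk J) with
      commutes' := fun r => by
        change AddMonoidAlgebra.mapRingHom G (Ideal.Quotient.mk J)
          (AddMonoidAlgebra.single 0 (algebraMap k A r)) = _
        rw [AddMonoidAlgebra.mapRingHom_single]
        rfl }
  have hπc : ∀ x g, (π x).coeff g = Ideal.Quotient.mk J (x.coeff g) := fun x g =>
    AddMonoidAlgebra.coeff_mapRingHom _ _ _
  have hπs : ∀ g a, π (AddMonoidAlgebra.single g a) = AddMonoidAlgebra.single g (Ideal.Quotient.mk J a) :=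
    fun g a => AddMonoidAlgebra.mapRingHom_single _ _ _
  have hsurj : Function.Surjective π := by
    intro x
    induction x using AddMonoidAlgebra.induction_linear with
    | zero => exact ⟨0, map_zero π⟩
    | add x y hx hy =>
      obtain ⟨a, rfl⟩ := hx
      obtain ⟨b, rfl⟩ := hy
      exact ⟨a + b, map_add π a b⟩
    | single g c =>
      obtain ⟨a, rfl⟩ := Ideal.Quotient.mk_surjective c
      exact ⟨AddMonoidAlgebra.single g a, hπs g a⟩
  have hker : RingHom.ker π = J.map (algebraMap A (AddMonoidAlgebra A G)) := by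
    apply le_antisymm
    · intro x hx
      rw [RingHom.mem_ker] at hx
      have h1 : ∀ g, x.coeff g ∈ J := by
        intro g
        rw [← Ideal.Quotient.eq_zero_iff_mem, ← hπc, hx]
        rfl
      have h2 : x = ∑ g ∈ x.coeff.support, AddMonoidAlgebra.single g (x.coeff g) :=
        (AddMonoidAlgebra.sum_coeff_single x).symm
      rw [h2]
      refine Ideal.sum_mem _ fun g _ => ?_
      have h3 : AddMonoidAlgebra.single g (x.coeff g) =
          AddMonoidAlgebra.single g 1 * algebraMap A (AddMonoidAlgebra A G) (x.coeff g) := by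
        change _ = AddMonoidAlgebra.single g 1 * AddMonoidAlgebra.single 0 (x.coeff g)
        rw [AddMonoidAlgebra.single_mul_single, add_zero, one_mul]
      rw [h3]
      exact Ideal.mul_mem_left _ _ (Ideal.mem_map_of_mem _ (h1 g))
    · rw [Ideal.map_le_iff_le_comap]
      intro a ha
      change π (AddMonoidAlgebra.single 0 a) = 0
      rw [hπs, Ideal.Quotient.eq_zero_iff_mem.mpr ha, AddMonoidAlgebra.single_zero]
  rw [← hker]
  exact ⟨Ideal.quotientKerAlgEquivOfSurjective hsurj⟩

end

variable {k : Type} [Field k] {P : Sch k → Prop} (hP : Loc P)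

include hP

/-- Splitting off a torus. -/
theorem p_split {N : Type} [AddCommGroup N] (hft : Algebra.FiniteType k (AddMonoidAlgebra k N))
    {b : ℕ} {L : Type} [AddCommGroup L] (e : (Fin b → ℤ) × N ≃+ L) (J : Ideal (AddMonoidAlgebra k N))
    (j : N →+ L) (hj : ∀ n, j n = e (0, n)) (h : P (aff k (AddMonoidAlgebra k N ⧸ J))) :
    P (aff k (AddMonoidAlgebra k L ⧸ J.map (md k j))) := by
  let A := AddMonoidAlgebra k N
  have h1 := p_tor hP b (A ⧸ J) h
  have hft1 : Algebra.FiniteType k (AddMonoidAlgebra (A ⧸ J) (Fin b → ℤ)) :=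
    Algebra.FiniteType.trans (S := A ⧸ J) inferInstance inferInstance
  obtain ⟨e1⟩ := quotC (k := k) (G := Fin b → ℤ) J
  let E : AddMonoidAlgebra A (Fin b → ℤ) ≃ₐ[k] AddMonoidAlgebra k L :=
    ((AddMonoidAlgebra.curryAlgEquiv k (A := k) (M := Fin b → ℤ) (N := N)).symm).trans
      (AddMonoidAlgebra.domCongr k k e)
  have hE : ∀ a : A, E (algebraMap A (AddMonoidAlgebra A (Fin b → ℤ)) a) = md k j a := by
    intro a
    change E (AddMonoidAlgebra.single 0 a) = md k j a
    induction a using AddMonoidAlgebra.induction_linear with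
    | zero => rw [AddMonoidAlgebra.single_zero, map_zero, map_zero]
    | add x y hx hy => rw [AddMonoidAlgebra.single_add, map_add, map_add, hx, hy]
    | single n c =>
      rw [md_single, hj]
      change AddMonoidAlgebra.domCongr k k e
        ((AddMonoidAlgebra.curryAlgEquiv k).symm (AddMonoidAlgebra.single 0
          (AddMonoidAlgebra.single n c))) = _
      rw [AddMonoidAlgebra.curryAlgEquiv_symm_single]
      exact AddMonoidAlgebra.domCongr_single _ _ _
  have hJ : J.map (md k j) = (J.map (algebraMap A (AddMonoidAlgebra A (Fin b → ℤ)))).map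
      (E : AddMonoidAlgebra A (Fin b → ℤ) →+* AddMonoidAlgebra k L) := by
    have h2 : (E : AddMonoidAlgebra A (Fin b → ℤ) →+* AddMonoidAlgebra k L).comp
        (algebraMap A (AddMonoidAlgebra A (Fin b → ℤ))) = (md k j : A →+* AddMonoidAlgebra k L) :=
      RingHom.ext hE
    rw [Ideal.map_map, h2]
    rfl
  let e2 : (AddMonoidAlgebra A (Fin b → ℤ) ⧸ J.map (algebraMap A (AddMonoidAlgebra A (Fin b → ℤ))))
      ≃ₐ[k] (AddMonoidAlgebra k L ⧸ J.map (md k j)) := Ideal.quotientEquivAlg _ _ E hJ
  exact iso_alg hP (e1.symm.trans e2) h1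

end Pool.Agent.V5helper52.FW
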