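import Pool.Agent.V5helper52.FW.Ferm
import Pool.Agent.V5helper52.FW.Spl

/-!
# The Fermat equations in the torus
-/

set_option autoImplicit false
set_option maxHeartbeats 400000

open CategoryTheory AlgebraicGeometry MvPolynomial Pool.Agent.Y116.UV Pool.Agent.V5helper52.SF
  Pool.Agent.V5helper52.TR

namespace Pool.Agent.V5helper52.FW

section

variable {R : Type} [CommRing R] {σ : Type} [DecidableEq σ]

/-- the coordinate subspace -/
noncomputable def rs (R : Type) [CommRing R] {σ : Type} [DecidableEq σ] (T : Finset σ) :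
    MvPolynomial σ R →ₐ[R] MvPolynomial {i // ¬ i ∈ T} R :=
  aeval fun i => if h : i ∈ T then 0 else X ⟨i, h⟩

lemma rs_mem {T : Finset σ} {i : σ} (h : i ∈ T) : rs R T (X i) = 0 := by
  rw [rs, aeval_X, dif_pos h]

lemma rs_notMem {T : Finset σ} {i : σ} (h : i ∉ T) : rs R T (X i) = X ⟨i, h⟩ := by
  rw [rs, aeval_X, dif_neg h]

lemma isQ_one {A : Type} [CommRing A] [Algebra R A] (I : Ideal A) :
    IsQ I 1 (Ideal.Quotient.mkₐ R I) where
  zero a ha := Ideal.Quotient.eq_zero_iff_mem.mpr ha
  unit := by rw [map_one]; exact isUnit_one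
  lift E _ _ g hg _ := ⟨Ideal.Quotient.liftₐ I g hg, by ext; rfl⟩
  ext E _ _ f f' e := Ideal.Quotient.algHom_ext _ e

theorem isQ_sub (I : Ideal (MvPolynomial σ R)) (T : Finset σ) :
    IsQ (I ⊔ Ideal.span ((X : σ → MvPolynomial σ R) '' (T : Set σ))) 1
      ((Ideal.Quotient.mkₐ R (I.map (rs R T))).comp (rs R T)) where
  zero a ha := by
    have h1 : I ⊔ Ideal.span ((X : σ → MvPolynomial σ R) '' (T : Set σ)) ≤
        (I.map (rs R T)).comap (rs R T) := by
      refine sup_le Ideal.le_comap_map (Ideal.span_le.mpr ?_)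
      rintro _ ⟨i, hi, rfl⟩
      change rs R T (X i) ∈ I.map (rs R T)
      rw [rs_mem (Finset.mem_coe.mp hi)]
      exact zero_mem _
    change Ideal.Quotient.mk (I.map (rs R T)) (rs R T a) = 0
    exact Ideal.Quotient.eq_zero_iff_mem.mpr (h1 ha)
  unit := by rw [map_one]; exact isUnit_one
  lift E _ _ g hg _ := by
    let f : MvPolynomial {i // ¬ i ∈ T} R →ₐ[R] E := aeval fun i => g (X i.1)
    have hfg : f.comp (rs R T) = g := by
      apply MvPolynomial.algHom_ext
      intro i
      rw [AlgHom.comp_apply]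
      by_cases h : i ∈ T
      · rw [rs_mem h, map_zero]
        exact (hg (X i) (Ideal.mem_sup_right (Ideal.subset_span ⟨i, Finset.mem_coe.mpr h, rfl⟩))).symm
      · rw [rs_notMem h]
        exact aeval_X _ _
    refine ⟨Ideal.Quotient.liftₐ _ f fun a ha => ?_, ?_⟩
    · have h1 : I.map (rs R T) ≤ RingHom.ker f := by
        rw [Ideal.map_le_iff_le_comap]
        intro b hb
        change f (rs R T b) = 0
        rw [← AlgHom.comp_apply, hfg]
        exact hg b (Ideal.mem_sup_left hb)
      exact h1 ha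
    · exact (show _ = f.comp (rs R T) from rfl).trans hfg
  ext E _ _ h h' e := by
    apply Ideal.Quotient.algHom_ext
    apply MvPolynomial.algHom_ext
    rintro ⟨i, hi⟩
    have h1 : h (Ideal.Quotient.mk (I.map (rs R T)) (rs R T (X i))) =
        h' (Ideal.Quotient.mk (I.map (rs R T)) (rs R T (X i))) := DFunLike.congr_fun e (X i)
    rw [rs_notMem hi] at h1
    exact h1

end

variable {k : Type} [Field k]

lemma rs_ferm {σ : Type} [Fintype σ] [DecidableEq σ] {E : ℕ} (hE : 0 < E) (c : σ → k) (a : k)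
    (T : Finset σ) : rs k T (Ferm E σ c - C a) = Ferm E {i // ¬ i ∈ T} (fun i => c i.1) - C a := by
  rw [map_sub, ← algebraMap_eq, AlgHom.commutes, algebraMap_eq, Ferm, Ferm, map_sum,
    ← Fintype.sum_subtype_add_sum_subtype (fun i => i ∈ T), Finset.sum_eq_zero, zero_add]
  · congr 1
    refine Finset.sum_congr rfl fun i _ => ?_
    rw [map_mul, map_pow, rs_notMem i.2, ← algebraMap_eq, AlgHom.commutes, algebraMap_eq]
  · intro i _
    rw [map_mul, map_pow, rs_mem i.2, zero_pow hE.ne', mul_zero]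

variable {P : Sch k → Prop} (hP : Cls True P)

include hP

/-- **The Fermat equations in the torus.** -/
theorem p_tferm {E : ℕ} (hE : 0 < E) (σ : Type) [Fintype σ] [DecidableEq σ] (c : σ → k) (a : k) :
    P (aff k (AddMonoidAlgebra k (σ → ℤ) ⧸ Ideal.span {AddMonoidAlgebra.single 0 a +
      ∑ i, AddMonoidAlgebra.single (E • Pi.single i 1 : σ → ℤ) (c i)})) := by
  have hL := loc_of_bnd hP.toBnd
  have h1 := p_open hL (Ideal.span {Ferm E σ c - C (-a)}) (fun T => by
    have h2 := isQ_sub (Ideal.span {Ferm E σ c - C (-a)}) T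
    have h3 : P (aff k (MvPolynomial {i // ¬ i ∈ T} k ⧸
        (Ideal.span {Ferm E σ c - C (-a)}).map (rs k T))) := by
      rw [Ideal.map_span, Set.image_singleton]
      change P (aff k (MvPolynomial {i // ¬ i ∈ T} k ⧸ Ideal.span {rs k T (Ferm E σ c - C (-a))}))
      rw [rs_ferm hE]
      exact p_ferm hP hE _ _ _
    exact st_to hL (isQ_one _) (st_of hL h2 h3))
  rw [Ideal.map_span, Set.image_singleton] at h1
  -- change of the index set
  let u : (↥(Finset.univ : Finset σ) → ℤ) ≃+ (σ → ℤ) :=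
    { toFun := fun x i => x ⟨i, Finset.mem_univ i⟩
      invFun := fun x i => x i.1
      left_inv := fun x => rfl
      right_inv := fun x => rfl
      map_add' := fun x y => rfl }
  let U : AddMonoidAlgebra k (↥(Finset.univ : Finset σ) → ℤ) ≃ₐ[k] AddMonoidAlgebra k (σ → ℤ) :=
    AddMonoidAlgebra.domCongr k k u
  have hU : U (th k Finset.univ (Ferm E σ c - C (-a))) = AddMonoidAlgebra.single 0 a +
      ∑ i, AddMonoidAlgebra.single (E • Pi.single i 1 : σ → ℤ) (c i) := by
    have hX : ∀ i, U (th k Finset.univ (X i)) = AddMonoidAlgebra.single (Pi.single i 1) 1 := by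
      intro i
      rw [th_mem (Finset.mem_univ i), tv]
      refine (AddMonoidAlgebra.domCongr_single _ _ _).trans ?_
      congr 1
      funext i'
      change (Pi.single (⟨i, Finset.mem_univ i⟩ : ↥(Finset.univ : Finset σ)) (1 : ℤ) :
        ↥(Finset.univ : Finset σ) → ℤ) ⟨i', Finset.mem_univ i'⟩ = _
      rw [Pi.single_apply, Pi.single_apply]
      congr 1
      exact propext Subtype.ext_iff
    have hC : ∀ x : k, U (th k Finset.univ (C x)) = AddMonoidAlgebra.single 0 x := by
      intro x
      rw [← algebraMap_eq, AlgHom.commutes, AlgEquiv.commutes]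
      rfl
    rw [map_sub, map_sub, hC, Ferm, map_sum, map_sum, add_comm, sub_eq_add_neg]
    congr 1
    · refine Finset.sum_congr rfl fun i _ => ?_
      rw [map_mul, map_pow, map_mul, map_pow, hX, hC, AddMonoidAlgebra.single_pow, one_pow,
        AddMonoidAlgebra.single_mul_single, zero_add, mul_one]
    · rw [AddMonoidAlgebra.single_neg, neg_neg]
  have e : (AddMonoidAlgebra k (↥(Finset.univ : Finset σ) → ℤ) ⧸
      Ideal.span {th k Finset.univ (Ferm E σ c - C (-a))}) ≃ₐ[k]
      (AddMonoidAlgebra k (σ → ℤ) ⧸ Ideal.span {AddMonoidAlgebra.single 0 a +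
      ∑ i, AddMonoidAlgebra.single (E • Pi.single i 1 : σ → ℤ) (c i)}) :=
    Ideal.quotientEquivAlg _ _ U (by
      rw [Ideal.map_span, Set.image_singleton, ← hU]
      rfl)
  exact iso_alg hL e h1

end Pool.Agent.V5helper52.FW
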