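import Pool.Agent.V5helper52.FW.Tor
import Pool.Agent.V5helper52.SF.Blocks
import Pool.Agent.V5helper52.TU.Prod
import Pool.Agent.V5helper52.TU.Union

/-!
# Fermat equations in tori
-/

set_option autoImplicit false
set_option maxHeartbeats 400000

open CategoryTheory AlgebraicGeometry MvPolynomial Pool.Agent.Y116.UV Pool.Agent.V5helper52.SF
  Pool.Agent.V5helper52.TR Pool.Agent.Z125.UN

namespace Pool.Agent.V5helper52.FW

variable {k : Type} [Field k]

/-- the equation of Fermat -/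
noncomputable def Ferm (E : ℕ) (τ : Type) [Fintype τ] (c : τ → k) : MvPolynomial τ k :=
  ∑ t, C (c t) * X t ^ E

lemma ferm_rename {E : ℕ} {τ τ' : Type} [Fintype τ] [Fintype τ'] (e : τ ≃ τ') (c : τ' → k) :
    rename e (Ferm E τ (fun t => c (e t))) = Ferm E τ' c := by
  rw [Ferm, Ferm, map_sum, ← e.sum_comp]
  refine Finset.sum_congr rfl fun t _ => ?_
  rw [map_mul, map_pow, rename_C, rename_X]

variable {P : Sch k → Prop} (hP : Cls True P)

lemma loc_of_bnd {P : Sch k → Prop} (hP : Bnd True P) : Loc P where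
  iso := hP.iso
  total := hP.total
  opened := hP.opened
  closed := hP.closed
  empty := Pool.Agent.V5helper52.TU.p_emp hP _
    (inferInstanceAs (IsEmpty (PrimeSpectrum PUnit.{1})))
  line _ _ _ _ hA := Pool.Agent.V5helper52.TU.p_polyX hP hA

include hP

lemma gd_ferm_one {E : ℕ} (hE : 0 < E) (τ : Type) [Fintype τ] (hτ : Fintype.card τ = 1)
    (c : τ → k) : Gd P (Ferm E τ c) := by
  have e : (Σ _ : Fin 1, Unit) ≃ τ := Fintype.equivOfCardEq (by simpa using hτ.symm)
  obtain ⟨a, ha⟩ : ∃ a, a = c (e ⟨0, ()⟩) := ⟨_, rfl⟩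
  have h1 : Gd P (aeval (fam fun _ : Fin 1 => (X () : MvPolynomial Unit k))
      (C a * X 0 ^ E : MvPolynomial (Fin 1) k)) := by
    refine gd_comp2 hP (by omega) (fun _ => gd_var hP) _ (fun _ => 1) E (by exact_mod_cast hE.ne')
      ?_
    have h2 := (isWeightedHomogeneous_C (fun _ : Fin 1 => (1 : ℤ)) a).mul
      ((isWeightedHomogeneous_X k (fun _ : Fin 1 => (1 : ℤ)) 0).pow E)
    rw [zero_add, nsmul_eq_mul, mul_one] at h2
    exact h2
  have h3 : fam (fun _ : Fin 1 => (X () : MvPolynomial Unit k)) 0 =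
      (X ⟨0, ()⟩ : MvPolynomial (Σ _ : Fin 1, Unit) k) := rename_X _ _
  have h2 : aeval (fam fun _ : Fin 1 => (X () : MvPolynomial Unit k))
      (C a * X 0 ^ E : MvPolynomial (Fin 1) k) =
      Ferm E (Σ _ : Fin 1, Unit) (fun t => c (e t)) := by
    rw [Ferm, Fintype.sum_sigma, Fin.sum_univ_one, Fintype.sum_unique, map_mul, map_pow, aeval_X,
      h3, ← algebraMap_eq, AlgHom.commutes, algebraMap_eq, ha]
  rw [h2] at h1
  have h3 := gd_auto (Finite.of_fintype τ) h1 (renameEquiv k e)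
  rw [← ferm_rename e c]
  exact h3

lemma gd_ferm_succ {E : ℕ} (hE : 0 < E) {n : ℕ}
    (ih : ∀ c : Fin (n + 1) → k, Gd P (Ferm E (Fin (n + 1)) c)) (τ : Type) [Fintype τ]
    (hτ : Fintype.card τ = n + 2) (c : τ → k) : Gd P (Ferm E τ c) := by
  let N : Fin 2 → ℕ := ![n + 1, 1]
  let e : (Σ i : Fin 2, Fin (N i)) ≃ τ := Fintype.equivOfCardEq (by
    rw [Fintype.card_sigma, Fin.sum_univ_two, Fintype.card_fin, Fintype.card_fin, hτ]
    rfl)
  let f : ∀ i, MvPolynomial (Fin (N i)) k := fun i => Ferm E (Fin (N i)) (fun t => c (e ⟨i, t⟩))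
  have hf : ∀ i, Gd P (f i) := by
    intro i
    fin_cases i
    · exact ih _
    · exact gd_ferm_one hP hE _ (by simp [N]) _
  have h1 : Gd P (aeval (fam f) (X 0 + X 1 : MvPolynomial (Fin 2) k)) := by
    refine gd_comp2 hP le_rfl hf _ (fun _ => 1) 1 one_ne_zero ?_
    exact (isWeightedHomogeneous_X k (fun _ : Fin 2 => (1 : ℤ)) 0).add
      (isWeightedHomogeneous_X k (fun _ : Fin 2 => (1 : ℤ)) 1)
  have h2 : aeval (fam f) (X 0 + X 1 : MvPolynomial (Fin 2) k) =
      Ferm E (Σ i : Fin 2, Fin (N i)) (fun t => c (e t)) := by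
    have h3 : ∀ i : Fin 2, fam f i = ∑ t : Fin (N i), C (c (e ⟨i, t⟩)) * X ⟨i, t⟩ ^ E := by
      intro i
      change rename (Sigma.mk (β := fun i => Fin (N i)) i)
        (Ferm E (Fin (N i)) (fun t => c (e ⟨i, t⟩))) = _
      rw [Ferm, map_sum]
      refine Finset.sum_congr rfl fun t _ => ?_
      rw [map_mul, map_pow, rename_C, rename_X]
    rw [map_add, aeval_X, aeval_X, h3, h3, Ferm, Fintype.sum_sigma, Fin.sum_univ_two]
  rw [h2] at h1
  have h4 := gd_auto (Finite.of_fintype τ) h1 (renameEquiv k e)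
  rw [← ferm_rename e c]
  exact h4

theorem gd_ferm {E : ℕ} (hE : 0 < E) (n : ℕ) : ∀ (τ : Type) [Fintype τ], Fintype.card τ = n + 1 →
    ∀ c : τ → k, Gd P (Ferm E τ c) := by
  induction n with
  | zero => exact fun τ _ hτ c => gd_ferm_one hP hE τ hτ c
  | succ n ih =>
    exact fun τ _ hτ c => gd_ferm_succ hP hE (ih _ (Fintype.card_fin _)) τ hτ c

/-- **The Fermat equations in affine space.** -/
theorem p_ferm {E : ℕ} (hE : 0 < E) (τ : Type) [Fintype τ] (c : τ → k) (a : k) :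
    P (aff k (MvPolynomial τ k ⧸ Ideal.span {Ferm E τ c - C a})) := by
  rcases Nat.eq_zero_or_pos (Fintype.card τ) with h0 | h0
  · have := Fintype.card_eq_zero_iff.mp h0
    refine hP.curve _ ((ringKrullDim_quotient_le _).trans ?_)
    rw [MvPolynomial.ringKrullDim_of_isNoetherianRing, ringKrullDim_eq_zero_of_field]
    simp
  · obtain ⟨n, hn⟩ := Nat.exists_eq_succ_of_ne_zero h0.ne'
    obtain ⟨N, hN, h⟩ := gd_step hP (gd_ferm hP hE n τ hn c)
    rw [← fib_level hP]
    have hk : ringKrullDim k ≤ 1 := by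
      rw [ringKrullDim_eq_zero_of_field]
      exact zero_le_one
    have := kum_ft (k := k) hN a
    exact h k a (hP.curve _ ((ringKrullDim_quotient_le _).trans hk))
      (hP.curve _ ((kum_dim hN a).trans hk))

end Pool.Agent.V5helper52.FW
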