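import Pool.Agent.V5helper52.FW.PLat

/-!
# Polynomials with few terms
-/

set_option autoImplicit false
set_option maxHeartbeats 400000

open CategoryTheory AlgebraicGeometry MvPolynomial Pool.Agent.Y116.UV Pool.Agent.V5helper52.SF
  Pool.Agent.V5helper52.TR Pool.Agent.Z125.UN

namespace Pool.Agent.V5helper52.FW

variable {k : Type} [Field k] {σ : Type} [Fintype σ] [DecidableEq σ]

/-- the restriction of a monomial to a stratum -/
lemma th_monomial (T : Finset σ) (m : σ →₀ ℕ) (c : k) : th k T (monomial m c) =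
    if ∀ i, m i ≠ 0 → i ∈ T then AddMonoidAlgebra.single (fun t : T => (m t : ℤ)) c else 0 := by
  rw [th, aeval_monomial]
  split_ifs with h
  · have h1 : (m.prod fun i e => (if h : i ∈ T then tv k (⟨i, h⟩ : T) else 0) ^ e) =
        AddMonoidAlgebra.single (fun t : T => (m t : ℤ)) 1 := by
      have h2 : (m.prod fun i e => (if h : i ∈ T then tv k (⟨i, h⟩ : T) else 0) ^ e) =
          ∏ i ∈ m.support, AddMonoidAlgebra.single (m i • fun t : T => if t.1 = i then (1 : ℤ) else 0)
            (1 : k) := by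
        refine Finset.prod_congr rfl fun i hi => ?_
        have hi' : i ∈ T := h i (Finsupp.mem_support_iff.mp hi)
        change (if h : i ∈ T then tv k (⟨i, h⟩ : T) else 0) ^ m i = _
        rw [dif_pos hi', tv, AddMonoidAlgebra.single_pow, one_pow]
        congr 2
        funext t
        rw [Pi.single_apply]
        congr 1
        exact propext Subtype.ext_iff
      rw [h2, AddMonoidAlgebra.prod_single, Finset.prod_const_one]
      congr 1
      funext t
      rw [Finset.sum_apply]
      have h3 : ∀ i ∈ m.support, (m i • fun t : T => if t.1 = i then (1 : ℤ) else 0) t =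
          if t.1 = i then (m i : ℤ) else 0 := by
        intro i _
        rw [Pi.smul_apply]
        split_ifs <;> simp
      rw [Finset.sum_congr rfl h3, Finset.sum_ite_eq]
      split_ifs with h4
      · rfl
      · rw [Finsupp.notMem_support_iff.mp h4]
        rfl
    rw [h1]
    change AddMonoidAlgebra.single 0 c * _ = _
    rw [AddMonoidAlgebra.single_mul_single, zero_add, mul_one]
  · push Not at h
    obtain ⟨i, hi, hiT⟩ := h
    have h1 : (m.prod fun i e => (if h : i ∈ T then tv k (⟨i, h⟩ : T) else 0) ^ e) = 0 := by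
      refine Finset.prod_eq_zero (Finsupp.mem_support_iff.mpr hi) ?_
      change (if h : i ∈ T then tv k (⟨i, h⟩ : T) else 0) ^ m i = _
      rw [dif_neg hiT, zero_pow hi]
    rw [h1, mul_zero]

/-- the exponents of the restriction to a stratum -/
lemma th_supp (T : Finset σ) (f : MvPolynomial σ k) (m' : T → ℤ)
    (hm' : m' ∈ (th k T f).coeff.support) :
    ∃ m ∈ f.support, (∀ i, m i ≠ 0 → i ∈ T) ∧ ∀ t : T, m' t = (m t : ℤ) := by
  have h1 : th k T f = ∑ m ∈ f.support, th k T (monomial m (coeff m f)) := by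
    conv_lhs => rw [f.as_sum]
    rw [map_sum]
  have h2 : ∀ s : Finset (σ →₀ ℕ), (∑ m ∈ s, th k T (monomial m (coeff m f))).coeff m' ≠ 0 →
      ∃ m ∈ s, (th k T (monomial m (coeff m f))).coeff m' ≠ 0 := by
    intro s
    induction s using Finset.induction_on with
    | empty => intro h; exact absurd (by simp) h
    | insert a s ha ih =>
      intro h
      rw [Finset.sum_insert ha, AddMonoidAlgebra.coeff_add, Finsupp.add_apply] at h
      by_cases h3 : (th k T (monomial a (coeff a f))).coeff m' = 0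
      · rw [h3, zero_add] at h
        obtain ⟨m, hm, h4⟩ := ih h
        exact ⟨m, Finset.mem_insert_of_mem hm, h4⟩
      · exact ⟨a, Finset.mem_insert_self _ _, h3⟩
  rw [h1] at hm'
  obtain ⟨m, hm, h3⟩ := h2 _ (Finsupp.mem_support_iff.mp hm')
  refine ⟨m, hm, ?_⟩
  rw [th_monomial] at h3
  split_ifs at h3 with h4
  · refine ⟨h4, fun t => ?_⟩
    rw [AddMonoidAlgebra.coeff_single, Finsupp.single_apply] at h3
    split_ifs at h3 with h5
    · rw [← h5]
    · exact absurd rfl h3
  · exact absurd rfl h3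

/-- the exponents of a polynomial -/
def expo (f : MvPolynomial σ k) : Set (σ → ℚ) :=
  (fun (m : σ →₀ ℕ) (i : σ) => (m i : ℚ)) '' (f.support : Set (σ →₀ ℕ))

/-- extension by zero -/
def ez (T : Finset σ) : (T → ℚ) →ₗ[ℚ] (σ → ℚ) where
  toFun x i := if h : i ∈ T then x ⟨i, h⟩ else 0
  map_add' x y := by
    funext i
    rw [Pi.add_apply]
    by_cases h : i ∈ T
    · rw [dif_pos h, dif_pos h, dif_pos h, Pi.add_apply]
    · rw [dif_neg h, dif_neg h, dif_neg h, add_zero]
  map_smul' c x := by
    funext i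
    rw [Pi.smul_apply]
    by_cases h : i ∈ T
    · rw [dif_pos h, dif_pos h, Pi.smul_apply]
      rfl
    · rw [dif_neg h, dif_neg h, smul_zero]

lemma ez_inj (T : Finset σ) : Function.Injective (ez T) := by
  intro x y h
  funext t
  have h1 := congrFun h t.1
  change (if h : t.1 ∈ T then x ⟨t.1, h⟩ else 0) = (if h : t.1 ∈ T then y ⟨t.1, h⟩ else 0) at h1
  rw [dif_pos t.2, dif_pos t.2] at h1
  exact h1

lemma gs_th {n : ℕ} (T : Finset σ) (f : MvPolynomial σ k) (hf : Gs n (expo f)) :
    Gs n (qv '' ((th k T f).coeff.support : Set (T → ℤ))) := by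
  refine Gs.of_image (ez T) (ez_inj T) (hf.mono ?_)
  rintro _ ⟨_, ⟨m', hm', rfl⟩, rfl⟩
  obtain ⟨m, hm, h1, h2⟩ := th_supp T f m' hm'
  refine ⟨m, hm, ?_⟩
  funext i
  change (m i : ℚ) = if h : i ∈ T then ((m' ⟨i, h⟩ : ℤ) : ℚ) else 0
  by_cases h : i ∈ T
  · rw [dif_pos h, h2 ⟨i, h⟩]
    rfl
  · rw [dif_neg h]
    by_contra h3
    exact h (h1 i fun h4 => h3 (by rw [h4]; rfl))

variable {P : Sch k → Prop} (hP : Cls True P) {n : ℕ}
  (hn : ∀ (A : Type) [CommRing A] [Algebra k A] [Algebra.FiniteType k A], ringKrullDim A ≤ n →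
    P (aff k A))

include hP hn

/-- **Polynomials with few terms.** -/
theorem p_few (f : MvPolynomial σ k) (hf : Gs n (expo f)) :
    P (aff k (MvPolynomial σ k ⧸ Ideal.span {f})) := by
  refine p_strata (loc_of_bnd hP.toBnd) _ fun T => ?_
  rw [Ideal.map_span, Set.image_singleton]
  exact p_lat hP hn (th k T f) (gs_th T f hf)

omit [DecidableEq σ] in
/-- **Polynomials with few terms:** the number of the terms, or their exponents. -/
theorem p_terms (f : MvPolynomial σ k) (hf : f.support.card ≤ n + 3 ∨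
    AffineIndependent ℚ (fun (m : f.support) (i : σ) => (m.1 i : ℚ)) ∨
    Module.finrank ℚ (vectorSpan ℚ (Set.range fun (m : f.support) (i : σ) => (m.1 i : ℚ))) ≤ n + 1) :
    P (aff k (MvPolynomial σ k ⧸ Ideal.span {f})) := by
  classical
  have hr : Set.range (fun (m : f.support) (i : σ) => (m.1 i : ℚ)) = expo f := by
    ext x
    constructor
    · rintro ⟨m, rfl⟩
      exact ⟨m.1, m.2, rfl⟩
    · rintro ⟨m, hm, rfl⟩
      exact ⟨⟨m, hm⟩, rfl⟩
  rcases hf with hf | hf | hf
  · refine p_few hP hn f (gs_card ((Finset.finite_toSet _).image _) ?_)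
    refine (Set.ncard_image_le (Finset.finite_toSet _)).trans ?_
    rw [Set.ncard_coe_finset]
    exact hf
  · refine p_few hP hn f (Or.inl ?_)
    have h2 := hf.range
    rw [hr] at h2
    exact h2
  · refine p_few hP hn f (Or.inr ?_)
    rw [hr] at hf
    exact hf

end Pool.Agent.V5helper52.FW
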