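import Pool.Agent.V5helper52.FW.Emb

/-!
# Small sets of exponents
-/

set_option autoImplicit false
set_option maxHeartbeats 400000

namespace Pool.Agent.V5helper52.FW

/-- affinely independent sets and sets in an affine subspace of dimension `n + 1` -/
def Gs (n : ℕ) {V : Type} [AddCommGroup V] [Module ℚ V] (s : Set V) : Prop :=
  AffineIndependent ℚ (fun x : s => (x : V)) ∨ Module.finrank ℚ (vectorSpan ℚ s) ≤ n + 1

variable {n : ℕ}

lemma Gs.mono {V : Type} [AddCommGroup V] [Module ℚ V] [Module.Finite ℚ V] {s t : Set V}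
    (h : Gs n t) (hs : s ⊆ t) : Gs n s := by
  rcases h with h | h
  · exact Or.inl (h.mono hs)
  · exact Or.inr ((Submodule.finrank_mono (vectorSpan_mono ℚ hs)).trans h)

lemma Gs.of_image {V V' : Type} [AddCommGroup V] [Module ℚ V] [AddCommGroup V'] [Module ℚ V']
    (L : V →ₗ[ℚ] V') (hL : Function.Injective L) {s : Set V} (h : Gs n (L '' s)) :
    Gs n s := by
  rcases h with h | h
  · left
    let u : s ↪ L '' s := ⟨fun x => ⟨L x, x, x.2, rfl⟩, fun x y hxy =>
      Subtype.ext (hL (congrArg Subtype.val hxy))⟩
    have h1 := h.comp_embedding u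
    exact AffineIndependent.of_comp L.toAffineMap h1
  · right
    have h1 : vectorSpan ℚ (L '' s) = (vectorSpan ℚ s).map L := by
      have h2 := AffineMap.map_vectorSpan L.toAffineMap (s := s)
      exact h2.symm
    rw [h1, ← (Submodule.equivMapOfInjective L hL (vectorSpan ℚ s)).finrank_eq] at h
    exact h

lemma gs_card {V : Type} [AddCommGroup V] [Module ℚ V] {s : Set V} (hs : s.Finite)
    (h : s.ncard ≤ n + 3) : Gs n s := by
  have := hs.fintype
  rw [Set.ncard_eq_toFinset_card' , Set.toFinset_card] at h
  by_cases h1 : Fintype.card s ≤ 1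
  · left
    have : Subsingleton s := Fintype.card_le_one_iff_subsingleton.mp h1
    exact affineIndependent_of_subsingleton ℚ _
  · obtain ⟨m, hm⟩ : ∃ m, Fintype.card s = m + 2 := ⟨Fintype.card s - 2, by omega⟩
    by_cases h2 : AffineIndependent ℚ (fun x : s => (x : V))
    · exact Or.inl h2
    · right
      have h3 := (finrank_vectorSpan_le_iff_not_affineIndependent ℚ (fun x : s => (x : V)) hm).mpr h2
      rw [Subtype.range_coe] at h3
      omega

end Pool.Agent.V5helper52.FW
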