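import Pool.Agent.V5helper52.FW.Tor
import Pool.Agent.V5helper52.SF.Cls

/-!
# Coverings of tori
-/

set_option autoImplicit false
set_option maxHeartbeats 400000

open CategoryTheory AlgebraicGeometry Pool.Agent.Y116.UV Pool.Agent.V5helper52.SF
  Pool.Agent.V5helper52.TR

namespace Pool.Agent.V5helper52.FW

variable {k : Type} [Field k] {M L : Type} [AddCommGroup M] [AddCommGroup L] (j : M →+ L)

/-- the map of group algebras -/
noncomputable def md (k : Type) [Field k] {M L : Type} [AddCommGroup M] [AddCommGroup L]
    (j : M →+ L) : AddMonoidAlgebra k M →ₐ[k] AddMonoidAlgebra k L :=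
  AddMonoidAlgebra.mapDomainAlgHom k k j

lemma md_single (m : M) (c : k) : md k j (AddMonoidAlgebra.single m c) =
    AddMonoidAlgebra.single (j m) c := AddMonoidAlgebra.mapDomain_single

variable {j} (hj : Function.Injective j)

include hj in
/-- The group algebra of a lattice is free over that of a sublattice of finite index. -/
theorem lat_free [Finite (L ⧸ j.range)] :
    letI := (md k j).toRingHom.toAlgebra
    ∃ n : ℕ, 0 < n ∧ Nonempty (AddMonoidAlgebra k L ≃ₗ[AddMonoidAlgebra k M]
      (Fin n → AddMonoidAlgebra k M)) := by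
  classical
  letI : Algebra (AddMonoidAlgebra k M) (AddMonoidAlgebra k L) := (md k j).toRingHom.toAlgebra
  have hsm : ∀ (a : AddMonoidAlgebra k M) (x : AddMonoidAlgebra k L), a • x = md k j a * x :=
    fun a x => rfl
  let Q := L ⧸ j.range
  have : Fintype Q := Fintype.ofFinite Q
  let s : Q → L := Quotient.out
  have hs : ∀ q : Q, (QuotientAddGroup.mk (s q) : Q) = q := fun q => Quotient.out_eq q
  -- the map
  let Φ : (Q → AddMonoidAlgebra k M) →ₗ[AddMonoidAlgebra k M] AddMonoidAlgebra k L :=
    { toFun := fun a => ∑ q, md k j (a q) * AddMonoidAlgebra.single (s q) 1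
      map_add' := fun a b => by
        rw [← Finset.sum_add_distrib]
        refine Finset.sum_congr rfl fun q _ => ?_
        rw [Pi.add_apply, map_add, add_mul]
      map_smul' := fun c a => by
        rw [RingHom.id_apply, hsm, Finset.mul_sum]
        refine Finset.sum_congr rfl fun q _ => ?_
        rw [Pi.smul_apply, smul_eq_mul, map_mul, mul_assoc] }
  have hΦ : ∀ a, Φ a = ∑ q, md k j (a q) * AddMonoidAlgebra.single (s q) 1 := fun a => rfl
  -- the components
  have key : ∀ (q q' : Q) (x : AddMonoidAlgebra k M), AddMonoidAlgebra.comapDomain j hj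
      (md k j x * AddMonoidAlgebra.single (s q' - s q) 1) = if q' = q then x else 0 := by
    intro q q' x
    induction x using AddMonoidAlgebra.induction_linear with
    | zero =>
      rw [map_zero, zero_mul, AddMonoidAlgebra.comapDomain_zero]
      split_ifs <;> rfl
    | add x y hx hy =>
      rw [map_add, add_mul, AddMonoidAlgebra.comapDomain_add, hx, hy]
      split_ifs
      · rfl
      · exact add_zero _
    | single m c =>
      rw [md_single, AddMonoidAlgebra.single_mul_single, mul_one]
      split_ifs with h
      · rw [h, sub_self, add_zero, AddMonoidAlgebra.comapDomain_single_map]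
      · have hnr : j m + (s q' - s q) ∉ Set.range j := ?_
        · ext m'
          change (Finsupp.comapDomain j (AddMonoidAlgebra.single (j m + (s q' - s q)) c).coeff _) m' = 0
          rw [Finsupp.comapDomain_apply]
          exact Finsupp.single_eq_of_ne fun h' => hnr ⟨m', h'⟩
        rintro ⟨m', hm'⟩
        apply h
        rw [← hs q, ← hs q', eq_comm, QuotientAddGroup.eq]
        refine ⟨m' - m, ?_⟩
        rw [map_sub, hm']
        abel
  have hinj : Function.Injective Φ := by
    rw [← LinearMap.ker_eq_bot, LinearMap.ker_eq_bot']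
    intro a ha
    funext q
    have h1 : (∑ q', md k j (a q') * AddMonoidAlgebra.single (s q' - s q) 1) = 0 := by
      have h2 : (∑ q', md k j (a q') * AddMonoidAlgebra.single (s q' - s q) (1 : k)) =
          Φ a * AddMonoidAlgebra.single (- s q) 1 := by
        rw [hΦ, Finset.sum_mul]
        refine Finset.sum_congr rfl fun q' _ => ?_
        rw [mul_assoc, AddMonoidAlgebra.single_mul_single, mul_one, sub_eq_add_neg]
      rw [h2, ha, zero_mul]
    have h2 := congrArg (AddMonoidAlgebra.comapDomainAddMonoidHom j hj) h1
    rw [map_sum, map_zero] at h2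
    have h3 : ∀ q', AddMonoidAlgebra.comapDomainAddMonoidHom j hj
        (md k j (a q') * AddMonoidAlgebra.single (s q' - s q) 1) = if q' = q then a q' else 0 :=
      fun q' => key q q' (a q')
    simp only [h3] at h2
    rw [Finset.sum_ite_eq'] at h2
    simpa using h2
  have hsurj : Function.Surjective Φ := by
    intro x
    induction x using AddMonoidAlgebra.induction_linear with
    | zero => exact ⟨0, map_zero Φ⟩
    | add x y hx hy =>
      obtain ⟨a, rfl⟩ := hx
      obtain ⟨b, rfl⟩ := hy
      exact ⟨a + b, map_add Φ a b⟩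
    | single l c =>
      let q : Q := QuotientAddGroup.mk l
      have h1 : (QuotientAddGroup.mk (s q) : Q) = QuotientAddGroup.mk l := hs q
      rw [QuotientAddGroup.eq] at h1
      obtain ⟨m, hm⟩ := h1
      refine ⟨Pi.single q (AddMonoidAlgebra.single m c), ?_⟩
      rw [hΦ, Finset.sum_eq_single q]
      · rw [Pi.single_eq_same, md_single, AddMonoidAlgebra.single_mul_single, mul_one, hm]
        congr 1
        abel
      · intro q' _ h
        rw [Pi.single_eq_of_ne h, map_zero, zero_mul]
      · exact fun h => absurd (Finset.mem_univ _) h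
  let e := LinearEquiv.ofBijective Φ ⟨hinj, hsurj⟩
  have hQ : Nonempty Q := ⟨QuotientAddGroup.mk 0⟩
  refine ⟨Fintype.card Q, Fintype.card_pos, ⟨e.symm.trans
    (LinearEquiv.funCongrLeft (AddMonoidAlgebra k M) (AddMonoidAlgebra k M)
      (Fintype.equivFin Q).symm)⟩⟩

variable {P : Sch k → Prop} (hP : Cls True P)

include hP hj in
/-- Closed subschemes of tori and coverings. -/
theorem p_cover [Finite (L ⧸ j.range)] (J : Ideal (AddMonoidAlgebra k M))
    (hft : Algebra.FiniteType k (AddMonoidAlgebra k M))
    (h : P (aff k (AddMonoidAlgebra k L ⧸ J.map (md k j)))) :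
    P (aff k (AddMonoidAlgebra k M ⧸ J)) := by
  letI : Algebra (AddMonoidAlgebra k M) (AddMonoidAlgebra k L) := (md k j).toRingHom.toAlgebra
  obtain ⟨n, hn, ⟨e⟩⟩ := lat_free (k := k) hj
  let A := AddMonoidAlgebra k M
  let B := AddMonoidAlgebra k L
  have hT : IsScalarTower k A B :=
    IsScalarTower.of_algebraMap_eq fun x => (AlgHom.commutes (md k j) x).symm
  let b := Algebra.TensorProduct.basis (A ⧸ J) (Module.Basis.ofEquivFun e)
  let e2 : (B ⧸ J.map (algebraMap A B)) ≃ₗ[A ⧸ J] (Fin n → A ⧸ J) :=
    (Algebra.TensorProduct.quotIdealMapEquivQuotTensor B J).toLinearEquiv.trans b.equivFun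
  have hT2 : IsScalarTower k (A ⧸ J) (B ⧸ J.map (algebraMap A B)) := by
    refine IsScalarTower.of_algebraMap_eq (R := k) (S := A ⧸ J)
      (A := B ⧸ J.map (algebraMap A B)) fun x => ?_
    exact congrArg (Ideal.Quotient.mk (J.map (algebraMap A B)))
      (AlgHom.commutes (md k j) x).symm
  exact hP.free (A ⧸ J) (B ⧸ J.map (algebraMap A B)) n hn ⟨e2⟩ h

end Pool.Agent.V5helper52.FW
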