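import Pool.Agent.V5helper52.FW.Small
import Pool.Agent.V5helper52.FW.Gs

/-!
# Laurent polynomials with few terms
-/

set_option autoImplicit false
set_option maxHeartbeats 400000

open CategoryTheory AlgebraicGeometry Pool.Agent.Y116.UV Pool.Agent.V5helper52.SF
  Pool.Agent.V5helper52.TR Pool.Agent.Z125.UN

namespace Pool.Agent.V5helper52.FW

variable {k : Type} [Field k] {T : Type}

lemma qv_inj : Function.Injective (qv : (T → ℤ) → (T → ℚ)) := by
  intro x y h
  funext t
  have h1 : (x t : ℚ) = y t := congrFun h t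
  exact_mod_cast h1

lemma qv_sub (x y : T → ℤ) : qv (x - y) = qv x - qv y := by
  funext t
  exact Int.cast_sub _ _

/-- multiplication with a monomial -/
lemma shift_eq (g : AddMonoidAlgebra k (T → ℤ)) (m0 : T → ℤ) :
    AddMonoidAlgebra.single (-m0) 1 * g =
      ∑ m ∈ g.coeff.support, AddMonoidAlgebra.single (m - m0) (g.coeff m) := by
  conv_lhs => rw [← AddMonoidAlgebra.sum_coeff_single g, Finsupp.sum, Finset.mul_sum]
  refine Finset.sum_congr rfl fun m _ => ?_
  rw [AddMonoidAlgebra.single_mul_single, one_mul, sub_eq_neg_add]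

lemma shift_span (g : AddMonoidAlgebra k (T → ℤ)) (m0 : T → ℤ) :
    Ideal.span {AddMonoidAlgebra.single (-m0) 1 * g} = Ideal.span {g} := by
  apply Ideal.span_singleton_mul_left_unit
  refine IsUnit.of_mul_eq_one (AddMonoidAlgebra.single m0 1) ?_
  rw [AddMonoidAlgebra.single_mul_single, neg_add_cancel, mul_one]
  rfl

lemma shift_supp (g : AddMonoidAlgebra k (T → ℤ)) (m0 : T → ℤ) (m : T → ℤ)
    (hm : m ∈ (AddMonoidAlgebra.single (-m0) 1 * g).coeff.support) :
    ∃ m' ∈ g.coeff.support, m = m' - m0 := by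
  classical
  have h := AddMonoidAlgebra.support_coeff_single_mul_subset g (1 : k) (-m0) hm
  obtain ⟨m', hm', rfl⟩ := Finset.mem_image.mp h
  exact ⟨m', hm', by rw [sub_eq_neg_add]⟩

variable [Fintype T] [DecidableEq T] {P : Sch k → Prop} (hP : Cls True P) {n : ℕ}
  (hn : ∀ (A : Type) [CommRing A] [Algebra k A] [Algebra.FiniteType k A], ringKrullDim A ≤ n →
    P (aff k A))

include hP

include hn in
/-- the exponents lie in a subspace of small dimension -/
lemma lat_plane (g : AddMonoidAlgebra k (T → ℤ)) (m0 : T → ℤ) (hm0 : m0 ∈ g.coeff.support)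
    (hg : Module.finrank ℚ (vectorSpan ℚ (qv '' (g.coeff.support : Set (T → ℤ)))) ≤ n + 1) :
    P (aff k (AddMonoidAlgebra k (T → ℤ) ⧸ Ideal.span {g})) := by
  classical
  let S : Set (T → ℤ) := (fun m => m - m0) '' (g.coeff.support : Set (T → ℤ))
  have hSfin : S.Finite := (Finset.finite_toSet _).image _
  obtain ⟨b, hbS, hspan, hb⟩ := exists_linearIndependent ℚ (qv '' S)
  have hbfin : b.Finite := (hSfin.image _).subset hbS
  have := hbfin.fintype
  have hW : vectorSpan ℚ (qv '' (g.coeff.support : Set (T → ℤ))) = Submodule.span ℚ b := by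
    rw [hspan, vectorSpan_eq_span_vsub_set_right ℚ (Set.mem_image_of_mem qv
      (Finset.mem_coe.mpr hm0))]
    congr 1
    ext x
    constructor
    · rintro ⟨_, ⟨m, hm, rfl⟩, rfl⟩
      exact ⟨m - m0, ⟨m, hm, rfl⟩, qv_sub _ _⟩
    · rintro ⟨_, ⟨m, hm, rfl⟩, rfl⟩
      exact ⟨qv m, ⟨m, hm, rfl⟩, (qv_sub _ _).symm⟩
  have hρ : Fintype.card b ≤ n + 1 := by
    rw [hW, finrank_span_set_eq_card hb, Set.toFinset_card] at hg
    exact hg
  obtain ⟨ρ, hρ2, ⟨e⟩⟩ : ∃ ρ, ρ ≤ n + 1 ∧ Nonempty (Fin ρ ≃ b) :=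
    ⟨_, hρ, ⟨(Fintype.equivFin b).symm⟩⟩
  have hch : ∀ x : b, ∃ m : T → ℤ, qv m = x := fun x => by
    obtain ⟨m, _, hm⟩ := hbS x.2
    exact ⟨m, hm⟩
  choose w hw using hch
  have hv : LinearIndependent ℚ fun i : Fin ρ => qv (w (e i)) := by
    have h1 := hb.comp e e.injective
    have h2 : (Subtype.val : b → (T → ℚ)) ∘ e = fun i : Fin ρ => qv (w (e i)) := by
      funext i
      exact (hw (e i)).symm
    rw [h2] at h1
    exact h1
  have hvs : Submodule.span ℚ (Set.range fun i : Fin ρ => qv (w (e i))) = Submodule.span ℚ b := by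
    congr 1
    ext x
    constructor
    · rintro ⟨i, rfl⟩
      change qv (w (e i)) ∈ b
      rw [hw]
      exact (e i).2
    · intro hx
      refine ⟨e.symm ⟨x, hx⟩, ?_⟩
      change qv (w (e (e.symm ⟨x, hx⟩))) = x
      rw [hw, e.apply_symm_apply]
  obtain ⟨E, j, hE, hj1, hj2, hj3⟩ := p_red hP (fun i => w (e i)) hv
  have hmem : ∀ m ∈ g.coeff.support, qv (m - m0) ∈
      Submodule.span ℚ (Set.range fun i : Fin ρ => qv (w (e i))) := by
    intro m hm
    rw [hvs, hspan]
    exact Submodule.subset_span ⟨m - m0, ⟨m, hm, rfl⟩, rfl⟩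
  rw [← shift_span g m0]
  refine hj3 _ (fun m hm => ?_) ?_
  · obtain ⟨m', hm', rfl⟩ := shift_supp g m0 m hm
    exact hmem m' hm'
  · refine p_small hn hρ2 _ fun _ h0 => ?_
    rw [shift_eq, map_sum] at h0
    have h1 := congrArg (fun x : AddMonoidAlgebra k (Fin ρ → ℤ) => x.coeff 0) h0
    simp only [md_single] at h1
    have h2 : ∀ s : Finset (T → ℤ), (∀ m ∈ s, m ∈ g.coeff.support) →
        (∑ m ∈ s, AddMonoidAlgebra.single (j (m - m0)) (g.coeff m)).coeff 0 =
          if m0 ∈ s then g.coeff m0 else 0 := by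
      intro s
      induction s using Finset.induction_on with
      | empty => intro _; simp
      | insert a s ha ih =>
        intro hs
        rw [Finset.sum_insert ha, AddMonoidAlgebra.coeff_add, Finsupp.add_apply,
          ih fun m hm => hs m (Finset.mem_insert_of_mem hm), AddMonoidAlgebra.coeff_single,
          Finsupp.single_apply]
        by_cases h : a = m0
        · subst h
          rw [sub_self, map_zero, if_pos rfl, if_neg ha, add_zero,
            if_pos (Finset.mem_insert_self _ _)]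
        · have h3 : j (a - m0) ≠ 0 := fun h4 => h (sub_eq_zero.mp
            (hj2 _ (hmem a (hs a (Finset.mem_insert_self _ _))) h4))
          rw [if_neg h3, zero_add]
          have h5 : (m0 ∈ insert a s) ↔ m0 ∈ s := by
            rw [Finset.mem_insert]
            exact ⟨fun h6 => h6.resolve_left fun h7 => h h7.symm, Or.inr⟩
          simp only [h5]
    have h3 := h2 g.coeff.support (fun _ h => h)
    rw [if_pos hm0] at h3
    have h4 : g.coeff m0 = 0 := h3.symm.trans h1
    exact (Finsupp.mem_support_iff.mp hm0) h4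

/-- the exponents are affinely independent -/
lemma lat_simplex (g : AddMonoidAlgebra k (T → ℤ)) (m0 : T → ℤ) (hm0 : m0 ∈ g.coeff.support)
    (hg : AffineIndependent ℚ (fun m : g.coeff.support => qv m.1)) :
    P (aff k (AddMonoidAlgebra k (T → ℤ) ⧸ Ideal.span {g})) := by
  classical
  rw [affineIndependent_iff_linearIndependent_vsub ℚ _ ⟨m0, hm0⟩] at hg
  let κ := {x : g.coeff.support // x ≠ ⟨m0, hm0⟩}
  obtain ⟨ρ, ⟨e⟩⟩ : ∃ ρ, Nonempty (Fin ρ ≃ κ) := ⟨_, ⟨(Fintype.equivFin κ).symm⟩⟩
  let v : Fin ρ → (T → ℤ) := fun i => (e i).1.1 - m0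
  have hv : LinearIndependent ℚ fun i : Fin ρ => qv (v i) := by
    have h1 := hg.comp e e.injective
    have h2 : (fun i : Fin ρ => qv (v i)) = (fun i : κ => qv i.1.1 -ᵥ qv m0) ∘ e := by
      funext i
      exact qv_sub _ _
    rw [h2]
    exact h1
  obtain ⟨E, j, hE, hj1, hj2, hj3⟩ := p_red hP v hv
  have hsum : AddMonoidAlgebra.single (-m0) 1 * g = AddMonoidAlgebra.single 0 (g.coeff m0) +
      ∑ i, AddMonoidAlgebra.single (v i) (g.coeff (e i).1.1) := by
    rw [shift_eq, ← Finset.add_sum_erase _ _ hm0, sub_self]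
    congr 1
    symm
    refine Finset.sum_bij (fun i _ => (e i).1.1) ?_ ?_ ?_ ?_
    · intro i _
      refine Finset.mem_erase.mpr ⟨fun h => (e i).2 (Subtype.ext h), (e i).1.2⟩
    · intro i _ i' _ h
      exact e.injective (Subtype.ext (Subtype.ext h))
    · intro m hm
      obtain ⟨h1, h2⟩ := Finset.mem_erase.mp hm
      refine ⟨e.symm ⟨⟨m, h2⟩, fun h => h1 (congrArg Subtype.val h)⟩, Finset.mem_univ _, ?_⟩
      rw [e.apply_symm_apply]
    · intro i _
      rfl
  rw [← shift_span g m0]
  refine hj3 _ (fun m hm => ?_) ?_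
  · obtain ⟨m', hm', rfl⟩ := shift_supp g m0 m hm
    by_cases h : m' = m0
    · rw [h, sub_self]
      have h0 : qv (0 : T → ℤ) = 0 := by
        funext t
        exact Int.cast_zero
      rw [h0]
      exact zero_mem _
    · refine Submodule.subset_span ⟨e.symm ⟨⟨m', hm'⟩, fun h' => h (congrArg Subtype.val h')⟩, ?_⟩
      change qv ((e (e.symm _)).1.1 - m0) = _
      rw [e.apply_symm_apply]
  · rw [hsum, map_add, map_sum, md_single, map_zero]
    have h1 : ∀ i, md k j (AddMonoidAlgebra.single (v i) (g.coeff (e i).1.1)) =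
        AddMonoidAlgebra.single (E • Pi.single i 1 : Fin ρ → ℤ) (g.coeff (e i).1.1) := by
      intro i
      rw [md_single, hj1]
    have h2 : (∑ i, md k j (AddMonoidAlgebra.single (v i) (g.coeff (e i).1.1))) =
        ∑ i, AddMonoidAlgebra.single (E • Pi.single i 1 : Fin ρ → ℤ) (g.coeff (e i).1.1) :=
      Finset.sum_congr rfl fun i _ => h1 i
    have h3 := p_tferm hP hE (Fin ρ) (fun i => g.coeff (e i).1.1) (g.coeff m0)
    rw [← h2] at h3
    exact h3

include hn in
/-- **Laurent polynomials with few terms.** -/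
theorem p_lat (g : AddMonoidAlgebra k (T → ℤ)) (hg : Gs n (qv '' (g.coeff.support : Set (T → ℤ)))) :
    P (aff k (AddMonoidAlgebra k (T → ℤ) ⧸ Ideal.span {g})) := by
  classical
  rcases g.coeff.support.eq_empty_or_nonempty with h | ⟨m0, hm0⟩
  · obtain ⟨E, j, hE, hj1, hj2, hj3⟩ := p_red hP (T := T) (ρ := 0) (fun i => i.elim0)
      (linearIndependent_empty_type)
    refine hj3 g (fun m hm => ?_) (p_small hn (by omega) _ (by omega))
    rw [h] at hm
    exact absurd hm (Finset.notMem_empty m)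
  · rcases hg with hg | hg
    · refine lat_simplex hP g m0 hm0 ?_
      let u : g.coeff.support ↪ (qv '' (g.coeff.support : Set (T → ℤ))) :=
        ⟨fun m => ⟨qv m.1, m.1, m.2, rfl⟩, fun x y hxy =>
          Subtype.ext (qv_inj (congrArg Subtype.val hxy))⟩
      exact hg.comp_embedding u
    · exact lat_plane hP hn g m0 hm0 hg

end Pool.Agent.V5helper52.FW
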