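import Pool.Agent.V5helper52.TR.Loc

/-!
# Localized quotients and stratifications
-/

set_option autoImplicit false
set_option maxHeartbeats 400000

open CategoryTheory AlgebraicGeometry Pool.Agent.Y116.UV Pool.Agent.V5helper52.SF
  Pool.Agent.V5helper52.TR

namespace Pool.Agent.V5helper52.FW

variable {R A D D' : Type} [CommRing R] [CommRing A] [Algebra R A] [CommRing D] [Algebra R D]
  [CommRing D'] [Algebra R D']

/-- `D` is the localization of `A / I` at `w`. -/
structure IsQ (I : Ideal A) (w : A) (q : A →ₐ[R] D) : Prop where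
  zero : ∀ a ∈ I, q a = 0
  unit : IsUnit (q w)
  lift : ∀ (E : Type) [CommRing E] [Algebra R E] (g : A →ₐ[R] E), (∀ a ∈ I, g a = 0) →
    IsUnit (g w) → ∃ h : D →ₐ[R] E, h.comp q = g
  ext : ∀ (E : Type) [CommRing E] [Algebra R E] (h h' : D →ₐ[R] E), h.comp q = h'.comp q → h = h'

variable {I : Ideal A} {w : A} {q : A →ₐ[R] D} {q' : A →ₐ[R] D'}

lemma IsQ.iso (h : IsQ I w q) (h' : IsQ I w q') : Nonempty (D ≃ₐ[R] D') := by
  obtain ⟨f, hf⟩ := h.lift D' q' h'.zero h'.unit
  obtain ⟨g, hg⟩ := h'.lift D q h.zero h.unit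
  refine ⟨AlgEquiv.ofAlgHom f g ?_ ?_⟩
  · apply h'.ext
    rw [AlgHom.comp_assoc, hg, hf, AlgHom.id_comp]
  · apply h.ext
    rw [AlgHom.comp_assoc, hf, hg, AlgHom.id_comp]

/-- the canonical map -/
noncomputable def qmap (R : Type) {A : Type} [CommRing R] [CommRing A] [Algebra R A] (I : Ideal A)
    (w : A) : A →ₐ[R] Localization.Away (Ideal.Quotient.mk I w) :=
  (IsScalarTower.toAlgHom R (A ⧸ I) (Localization.Away (Ideal.Quotient.mk I w))).comp
    (Ideal.Quotient.mkₐ R I)

lemma isQ_qmap (I : Ideal A) (w : A) : IsQ I w (qmap R I w) where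
  zero a ha := by
    change algebraMap (A ⧸ I) _ (Ideal.Quotient.mk I a) = 0
    rw [Ideal.Quotient.eq_zero_iff_mem.mpr ha, map_zero]
  unit := IsLocalization.Away.algebraMap_isUnit (Ideal.Quotient.mk I w)
  lift E _ _ g hg hu := by
    let g1 : (A ⧸ I) →ₐ[R] E := Ideal.Quotient.liftₐ I g hg
    have h1 : ∀ a, g1 (Ideal.Quotient.mk I a) = g a := fun a => rfl
    let h : Localization.Away (Ideal.Quotient.mk I w) →ₐ[R] E :=
      IsLocalization.liftAlgHom (M := Submonoid.powers (Ideal.Quotient.mk I w)) (f := g1) (by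
        rintro ⟨_, i, rfl⟩
        change IsUnit (g1 (Ideal.Quotient.mk I w ^ i))
        rw [map_pow, h1]
        exact hu.pow i)
    refine ⟨h, ?_⟩
    ext a
    change h (algebraMap _ _ (Ideal.Quotient.mk I a)) = g a
    exact (IsLocalization.lift_eq _ _).trans (h1 a)
  ext E _ _ h h' e := by
    apply AlgHom.coe_ringHom_injective
    refine IsLocalization.ringHom_ext (Submonoid.powers (Ideal.Quotient.mk I w)) ?_
    ext a
    exact DFunLike.congr_fun e a

/-- the quotient by an element -/
lemma IsQ.quot (h : IsQ I w q) (x : A) : IsQ (I ⊔ Ideal.span {x}) w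
    ((Ideal.Quotient.mkₐ R (Ideal.span {q x})).comp q) where
  zero a ha := by
    obtain ⟨b, hb, c, hc, rfl⟩ := Submodule.mem_sup.mp ha
    obtain ⟨c, rfl⟩ := Ideal.mem_span_singleton'.mp hc
    change Ideal.Quotient.mk _ (q (b + c * x)) = 0
    rw [map_add, h.zero b hb, zero_add, map_mul, Ideal.Quotient.eq_zero_iff_mem]
    exact Ideal.mul_mem_left _ _ (Ideal.mem_span_singleton_self _)
  unit := h.unit.map (Ideal.Quotient.mkₐ R (Ideal.span {q x}))
  lift E _ _ g hg hu := by
    obtain ⟨f, hf⟩ := h.lift E g (fun a ha => hg a (Ideal.mem_sup_left ha)) hu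
    have hx : f (q x) = 0 := by
      have h1 := DFunLike.congr_fun hf x
      exact h1.trans (hg x (Ideal.mem_sup_right (Ideal.mem_span_singleton_self x)))
    refine ⟨Ideal.Quotient.liftₐ _ f fun a ha => ?_, ?_⟩
    · obtain ⟨c, rfl⟩ := Ideal.mem_span_singleton'.mp ha
      rw [map_mul, hx, mul_zero]
    · ext a
      exact DFunLike.congr_fun hf a
  ext E _ _ f f' e := by
    apply Ideal.Quotient.algHom_ext
    apply h.ext
    exact e

/-- the localization at an element -/
lemma IsQ.away (h : IsQ I w q) (x : A) : IsQ I (w * x)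
    ((IsScalarTower.toAlgHom R D (Localization.Away (q x))).comp q) where
  zero a ha := by
    change algebraMap D _ (q a) = 0
    rw [h.zero a ha, map_zero]
  unit := by
    change IsUnit (algebraMap D (Localization.Away (q x)) (q (w * x)))
    rw [map_mul, map_mul]
    exact (h.unit.map _).mul (IsLocalization.Away.algebraMap_isUnit (q x))
  lift E _ _ g hg hu := by
    rw [map_mul] at hu
    obtain ⟨f, hf⟩ := h.lift E g hg (isUnit_of_mul_isUnit_left hu)
    have hf' : ∀ a, f (q a) = g a := fun a => DFunLike.congr_fun hf a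
    have hx : IsUnit (f (q x)) := by
      rw [hf']
      exact isUnit_of_mul_isUnit_right hu
    let f1 : Localization.Away (q x) →ₐ[R] E :=
      IsLocalization.liftAlgHom (M := Submonoid.powers (q x)) (f := f) (by
        rintro ⟨_, i, rfl⟩
        change IsUnit (f (q x ^ i))
        rw [map_pow]
        exact hx.pow i)
    refine ⟨f1, ?_⟩
    ext a
    change f1 (algebraMap _ _ (q a)) = g a
    exact (IsLocalization.lift_eq _ _).trans (hf' a)
  ext E _ _ f f' e := by
    apply AlgHom.coe_ringHom_injective
    refine IsLocalization.ringHom_ext (Submonoid.powers (q x)) ?_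
    have h1 := h.ext E (f.comp (IsScalarTower.toAlgHom R D (Localization.Away (q x))))
      (f'.comp (IsScalarTower.toAlgHom R D (Localization.Away (q x)))) e
    ext d
    exact DFunLike.congr_fun h1 d

/-- The property `P` for the localization of `A / I` at `w`. -/
def St (P : Sch R → Prop) (I : Ideal A) (w : A) : Prop :=
  P (aff R (Localization.Away (Ideal.Quotient.mk I w)))

variable [Algebra.FiniteType R A] {P : Sch R → Prop} (hP : Loc P)

lemma ft_loc (I : Ideal A) (w : A) :
    Algebra.FiniteType R (Localization.Away (Ideal.Quotient.mk I w)) :=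
  Algebra.FiniteType.trans (S := A ⧸ I) inferInstance inferInstance

lemma IsQ.ft (h : IsQ I w q) : Algebra.FiniteType R D := by
  obtain ⟨e⟩ := (isQ_qmap (R := R) I w).iso h
  exact Algebra.FiniteType.equiv (ft_loc I w) e

include hP

lemma st_of (h : IsQ I w q) (hD : P (aff R D)) : St P I w := by
  have := h.ft
  obtain ⟨e⟩ := h.iso (isQ_qmap (R := R) I w)
  exact iso_alg hP e hD

lemma st_to (h : IsQ I w q) (hD : St P I w) : P (aff R D) := by
  have := ft_loc (R := R) I w
  obtain ⟨e⟩ := (isQ_qmap (R := R) I w).iso h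
  exact iso_alg hP e hD

lemma st_total (x : A) (h1 : St P (I ⊔ Ideal.span {x}) w) (h2 : St P I (w * x)) : St P I w := by
  have := ft_loc (R := R) I w
  exact ring_total hP (qmap R I w x) (st_to hP ((isQ_qmap I w).quot x) h1)
    (st_to hP ((isQ_qmap I w).away x) h2)

lemma st_open (x : A) (h1 : St P (I ⊔ Ideal.span {x}) w) (h2 : St P I w) : St P I (w * x) := by
  have := ft_loc (R := R) I w
  exact st_of hP ((isQ_qmap I w).away x)
    (ring_open hP (qmap R I w x) (st_to hP ((isQ_qmap I w).quot x) h1) h2)

/-- the stratification of `V(I)` by elements `x i` -/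
theorem st_strata {ι : Type} [DecidableEq ι] (x : ι → A) (F : Finset ι) : ∀ (I : Ideal A) (w : A),
    (∀ T ⊆ F, St P (I ⊔ Ideal.span (x '' ((F \ T : Finset ι) : Set ι))) (w * ∏ i ∈ T, x i)) →
      St P I w := by
  induction F using Finset.induction_on with
  | empty =>
    intro I w h
    have h1 := h ∅ subset_rfl
    simpa using h1
  | insert i F hi ih =>
    intro I w h
    refine st_total hP (x i) (ih _ _ fun T hT => ?_) (ih _ _ fun T hT => ?_)
    · have h1 := h T (hT.trans (Finset.subset_insert i F))
      have h2 : (insert i F : Finset ι) \ T = insert i (F \ T) :=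
        Finset.insert_sdiff_of_notMem _ fun h => hi (hT h)
      rw [h2, Finset.coe_insert, Set.image_insert_eq, Set.insert_eq, Ideal.span_union,
        ← sup_assoc] at h1
      exact h1
    · have hiT : i ∉ T := fun h => hi (hT h)
      have h1 := h (insert i T) (Finset.insert_subset_insert i hT)
      have h2 : (insert i F : Finset ι) \ insert i T = F \ T := by
        rw [Finset.insert_sdiff_insert, Finset.sdiff_insert_of_notMem hi]
      rw [h2, Finset.prod_insert hiT, ← mul_assoc] at h1
      exact h1

/-- the open stratum -/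
theorem st_torus {ι : Type} [DecidableEq ι] (x : ι → A) (F : Finset ι) : ∀ (I : Ideal A) (w : A),
    (∀ T ⊆ F, St P (I ⊔ Ideal.span (x '' (T : Set ι))) w) → St P I (w * ∏ i ∈ F, x i) := by
  induction F using Finset.induction_on with
  | empty =>
    intro I w h
    have h1 := h ∅ subset_rfl
    simpa using h1
  | insert i F hi ih =>
    intro I w h
    rw [Finset.prod_insert hi, mul_comm (x i), ← mul_assoc]
    refine st_open hP (x i) (ih _ _ fun T hT => ?_) (ih _ _ fun T hT =>
      h T (hT.trans (Finset.subset_insert i F)))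
    have h1 := h (insert i T) (Finset.insert_subset_insert i hT)
    rw [Finset.coe_insert, Set.image_insert_eq, Set.insert_eq, Ideal.span_union, ← sup_assoc] at h1
    exact h1

end Pool.Agent.V5helper52.FW
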