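import Pool.Agent.V5helper52.FW.Spl
import Pool.Agent.V5helper52.FW.Ferm

/-!
# Reduction to a torus of small dimension
-/

set_option autoImplicit false
set_option maxHeartbeats 400000

open CategoryTheory AlgebraicGeometry Pool.Agent.Y116.UV Pool.Agent.V5helper52.SF
  Pool.Agent.V5helper52.TR

namespace Pool.Agent.V5helper52.FW

variable {k : Type} [Field k]

lemma md_congr {M L : Type} [AddCommGroup M] [AddCommGroup L] {j j' : M →+ L}
    (f : AddMonoidAlgebra k M) (h : ∀ m ∈ f.coeff.support, j m = j' m) :
    md k j f = md k j' f := by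
  have h1 : f = ∑ m ∈ f.coeff.support, AddMonoidAlgebra.single m (f.coeff m) :=
    (AddMonoidAlgebra.sum_coeff_single f).symm
  rw [h1, map_sum, map_sum]
  refine Finset.sum_congr rfl fun m hm => ?_
  rw [md_single, md_single, h m hm]

lemma md_comp {M L K : Type} [AddCommGroup M] [AddCommGroup L] [AddCommGroup K] (j : M →+ L)
    (i : L →+ K) (f : AddMonoidAlgebra k M) : md k (i.comp j) f = md k i (md k j f) := by
  induction f using AddMonoidAlgebra.induction_linear with
  | zero => rw [map_zero, map_zero, map_zero]
  | add x y hx hy => rw [map_add, map_add, map_add, hx, hy]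
  | single m c => rw [md_single, md_single, md_single]; rfl

variable {P : Sch k → Prop} (hP : Cls True P)

include hP

/-- **Reduction to the torus of the span of the exponents.** -/
theorem p_red {T : Type} [Fintype T] [DecidableEq T] {ρ : ℕ} (v : Fin ρ → (T → ℤ))
    (hv : LinearIndependent ℚ fun i => qv (v i)) :
    ∃ (E : ℕ) (j : (T → ℤ) →+ (Fin ρ → ℤ)), 0 < E ∧ (∀ i, j (v i) = E • Pi.single i 1) ∧
      (∀ m : T → ℤ, qv m ∈ Submodule.span ℚ (Set.range fun i => qv (v i)) → j m = 0 → m = 0) ∧
      ∀ f : AddMonoidAlgebra k (T → ℤ), (∀ m ∈ f.coeff.support,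
        qv m ∈ Submodule.span ℚ (Set.range fun i => qv (v i))) →
        P (aff k (AddMonoidAlgebra k (Fin ρ → ℤ) ⧸ Ideal.span {md k j f})) →
        P (aff k (AddMonoidAlgebra k (T → ℤ) ⧸ Ideal.span {f})) := by
  classical
  obtain ⟨β, hβ, E, j, hE, hinj, hfin, h1, h2, h3⟩ := exists_emb v hv
  let pr : (Fin ρ ⊕ β → ℤ) →+ (Fin ρ → ℤ) :=
    { toFun := fun x i => x (Sum.inl i)
      map_zero' := rfl
      map_add' := fun _ _ => rfl }
  let ι : (Fin ρ → ℤ) →+ (Fin ρ ⊕ β → ℤ) :=
    { toFun := fun x => Sum.elim x 0
      map_zero' := by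
        funext x
        rcases x with x | x <;> rfl
      map_add' := fun x y => by
        funext z
        rcases z with z | z
        · rfl
        · exact (add_zero (0 : ℤ)).symm }
  have hι : ∀ m : T → ℤ, qv m ∈ Submodule.span ℚ (Set.range fun i => qv (v i)) →
      j m = ι (pr (j m)) := by
    intro m hm
    funext x
    rcases x with x | x
    · rfl
    · exact h3 m hm x
  refine ⟨E, pr.comp j, hE, ?_, ?_, ?_⟩
  · intro i
    funext i'
    change j (v i) (Sum.inl i') = _
    rw [h2, Pi.smul_apply, Pi.single_apply]
    by_cases h : i = i'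
    · rw [if_pos h, if_pos h.symm]
      simp
    · rw [if_neg h, if_neg (Ne.symm h)]
      simp
  · intro m hm h0
    apply hinj
    rw [hι m hm, show pr (j m) = 0 from h0, map_zero, map_zero]
  · intro f hf hg
    refine p_cover hinj hP _ inferInstance ?_
    rw [Ideal.map_span, Set.image_singleton]
    have hf' : md k j f = md k ι (md k (pr.comp j) f) := by
      rw [← md_comp]
      exact md_congr f fun m hm => hι m (hf m hm)
    obtain ⟨b, ⟨eb⟩⟩ := Finite.exists_equiv_fin β
    let e : (Fin b → ℤ) × (Fin ρ → ℤ) ≃+ (Fin ρ ⊕ β → ℤ) :=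
      { toFun := fun x => Sum.elim x.2 (fun y => x.1 (eb y))
        invFun := fun x => (fun y => x (Sum.inr (eb.symm y)), fun i => x (Sum.inl i))
        left_inv := fun x => by
          refine Prod.ext ?_ rfl
          funext y
          exact congrArg x.1 (eb.apply_symm_apply y)
        right_inv := fun x => by
          funext y
          rcases y with y | y
          · rfl
          · exact congrArg (fun z => x (Sum.inr z)) (eb.symm_apply_apply y)
        map_add' := fun x y => by
          funext z
          rcases z with z | z <;> rfl }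
    have h4 := p_split (loc_of_bnd hP.toBnd) (N := Fin ρ → ℤ) inferInstance e
      (Ideal.span {md k (pr.comp j) f}) ι (fun n => by
        funext z
        rcases z with z | z <;> rfl) hg
    rw [Ideal.map_span, Set.image_singleton] at h4
    have h5 : (md k j) f = (md k ι) (md k (pr.comp j) f) := hf'
    change P (aff k (AddMonoidAlgebra k (Fin ρ ⊕ β → ℤ) ⧸ Ideal.span {(md k j) f}))
    rw [h5]
    exact h4

end Pool.Agent.V5helper52.FW
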