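import Pool.Agent.V5helper52.FW.TFerm
import Pool.Agent.V5helper52.FW.Red
import Pool.Agent.Z125.UN.Dim2

/-!
# Tori of small dimension
-/

set_option autoImplicit false
set_option maxHeartbeats 400000

open CategoryTheory AlgebraicGeometry MvPolynomial Pool.Agent.Y116.UV Pool.Agent.V5helper52.SF
  Pool.Agent.V5helper52.TR Pool.Agent.Z125.UN

namespace Pool.Agent.V5helper52.FW

variable {k : Type} [Field k]

lemma dim_tor (ρ : ℕ) : ringKrullDim (AddMonoidAlgebra k (Fin ρ → ℤ)) ≤ ρ := by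
  obtain ⟨e⟩ := (isQ_torus (R := k) (σ := Fin ρ) ⊥ Finset.univ).iso (isQ_qmap (R := k) _ _)
  have h1 := ringKrullDim_eq_of_ringEquiv e.toRingEquiv
  have h2 : ringKrullDim (AddMonoidAlgebra k (↥(Finset.univ : Finset (Fin ρ)) → ℤ) ⧸
      (⊥ : Ideal (MvPolynomial (Fin ρ) k)).map (th k Finset.univ)) ≤ ρ := by
    rw [h1]
    exact (dim_away _).trans ((ringKrullDim_quotient_le _).trans (dim_space ρ))
  let u : (↥(Finset.univ : Finset (Fin ρ)) → ℤ) ≃+ (Fin ρ → ℤ) :=
    { toFun := fun x i => x ⟨i, Finset.mem_univ i⟩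
      invFun := fun x i => x i.1
      left_inv := fun x => rfl
      right_inv := fun x => rfl
      map_add' := fun x y => rfl }
  have h3 : (⊥ : Ideal (MvPolynomial (Fin ρ) k)).map (th k Finset.univ) = ⊥ := Ideal.map_bot
  have h4 := ringKrullDim_eq_of_ringEquiv
    ((Ideal.quotEquivOfEq h3).trans (RingEquiv.quotientBot _))
  rw [h4] at h2
  rw [← ringKrullDim_eq_of_ringEquiv (AddMonoidAlgebra.domCongr k k u).toRingEquiv]
  exact h2

variable {P : Sch k → Prop} {n : ℕ} (hn : ∀ (A : Type) [CommRing A] [Algebra k A]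
  [Algebra.FiniteType k A], ringKrullDim A ≤ n → P (aff k A))

include hn

/-- Hypersurfaces in tori of small dimension. -/
theorem p_small {ρ : ℕ} (hρ : ρ ≤ n + 1) (h : AddMonoidAlgebra k (Fin ρ → ℤ))
    (h0 : ρ = n + 1 → h ≠ 0) :
    P (aff k (AddMonoidAlgebra k (Fin ρ → ℤ) ⧸ Ideal.span {h})) := by
  refine hn _ ?_
  rcases Nat.lt_or_eq_of_le hρ with h1 | rfl
  · refine (ringKrullDim_quotient_le _).trans ((dim_tor ρ).trans ?_)
    have h2 : ρ ≤ n := by omega
    exact_mod_cast h2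
  · have h1 := ringKrullDim_quotient_succ_le_of_nonZeroDivisor
      (mem_nonZeroDivisors_of_ne_zero (h0 rfl))
    have h2 : ringKrullDim (AddMonoidAlgebra k (Fin (n + 1) → ℤ) ⧸ Ideal.span {h}) + 1 ≤
        (n : WithBot ℕ∞) + 1 := h1.trans ((dim_tor (n + 1)).trans (by push_cast; exact le_rfl))
    exact ENat.WithBot.add_le_add_natCast_right_iff.mp h2

end Pool.Agent.V5helper52.FW
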