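import Pool.Agent.V5helper52.FW.Q

/-!
# The open strata of affine space
-/

set_option autoImplicit false
set_option maxHeartbeats 400000

open CategoryTheory AlgebraicGeometry MvPolynomial Pool.Agent.Y116.UV Pool.Agent.V5helper52.SF
  Pool.Agent.V5helper52.TR

namespace Pool.Agent.V5helper52.FW

variable {R : Type} [CommRing R]

section ext

variable {T : Type} [Fintype T] [DecidableEq T] {E : Type} [CommRing E] [Algebra R E]

/-- the variables of the torus -/
noncomputable def tv (R : Type) [CommRing R] {T : Type} [DecidableEq T] (i : T) :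
    AddMonoidAlgebra R (T → ℤ) := AddMonoidAlgebra.single (Pi.single i 1) 1

lemma tv_unit (i : T) : IsUnit (tv R i) := by
  refine IsUnit.of_mul_eq_one (AddMonoidAlgebra.single (-Pi.single i 1) 1) ?_
  rw [tv, AddMonoidAlgebra.single_mul_single, add_neg_cancel, mul_one]
  rfl

lemma ofAdd_eq (m : T → ℤ) : Multiplicative.ofAdd m =
    ∏ i, (Multiplicative.ofAdd (Pi.single i 1 : T → ℤ)) ^ (m i) := by
  have h1 : m = ∑ i, m i • (Pi.single i 1 : T → ℤ) := by
    ext j
    rw [Finset.sum_apply, Finset.sum_eq_single j]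
    · rw [Pi.smul_apply, Pi.single_eq_same]
      exact (mul_one _).symm
    · intro i _ hij
      rw [Pi.smul_apply, Pi.single_eq_of_ne hij.symm, smul_zero]
    · exact fun h => absurd (Finset.mem_univ _) h
  conv_lhs => rw [h1]
  rw [ofAdd_sum]
  rfl

lemma tor_ext (f f' : AddMonoidAlgebra R (T → ℤ) →ₐ[R] E) (h : ∀ i, f (tv R i) = f' (tv R i)) :
    f = f' := by
  have key : ∀ F F' : Multiplicative (T → ℤ) →* E, (∀ i, F (Multiplicative.ofAdd (Pi.single i 1)) =
      F' (Multiplicative.ofAdd (Pi.single i 1))) → F = F' := by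
    intro F F' hF
    have h1 : F.toHomUnits = F'.toHomUnits := by
      refine MonoidHom.ext fun m => ?_
      obtain ⟨m, rfl⟩ := Multiplicative.ofAdd.surjective m
      rw [ofAdd_eq m, map_prod, map_prod]
      refine Finset.prod_congr rfl fun i _ => ?_
      rw [map_zpow, map_zpow, show F.toHomUnits (Multiplicative.ofAdd (Pi.single i 1)) =
        F'.toHomUnits (Multiplicative.ofAdd (Pi.single i 1)) from Units.ext (hF i)]
    refine MonoidHom.ext fun m => ?_
    have h2 := DFunLike.congr_fun h1 m
    exact congrArg Units.val h2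
  refine AddMonoidAlgebra.algHom_ext (fun m => ?_) (Subsingleton.elim _ _)
  have h1 := key ((f : AddMonoidAlgebra R (T → ℤ) →* E).comp (AddMonoidAlgebra.of R (T → ℤ)))
    ((f' : AddMonoidAlgebra R (T → ℤ) →* E).comp (AddMonoidAlgebra.of R (T → ℤ))) h
  exact DFunLike.congr_fun h1 (Multiplicative.ofAdd m)

/-- maps from the torus -/
lemma tor_lift (u : T → E) (hu : ∀ i, IsUnit (u i)) :
    ∃ f : AddMonoidAlgebra R (T → ℤ) →ₐ[R] E, ∀ i, f (tv R i) = u i := by
  choose v hv using hu
  let ψ : Multiplicative (T → ℤ) →* E :=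
    { toFun := fun m => ((∏ i, v i ^ (m.toAdd i) : Eˣ) : E)
      map_one' := by
        rw [toAdd_one]
        simp
      map_mul' := fun a b => by
        rw [toAdd_mul, ← Units.val_mul, ← Finset.prod_mul_distrib]
        congr 1
        exact Finset.prod_congr rfl fun i _ => zpow_add _ _ _ }
  refine ⟨AddMonoidAlgebra.lift R E (T → ℤ) ψ, fun i => ?_⟩
  rw [tv, AddMonoidAlgebra.lift_single, one_smul]
  change ((∏ j, v j ^ ((Pi.single i 1 : T → ℤ) j) : Eˣ) : E) = u i
  rw [Finset.prod_eq_single i]
  · rw [Pi.single_eq_same, zpow_one, hv]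
  · intro j _ hji
    rw [Pi.single_eq_of_ne hji, zpow_zero]
  · exact fun h => absurd (Finset.mem_univ _) h

end ext

variable {σ : Type} [Fintype σ] [DecidableEq σ]

/-- restriction to the stratum -/
noncomputable def th (R : Type) [CommRing R] {σ : Type} [DecidableEq σ] (T : Finset σ) :
    MvPolynomial σ R →ₐ[R] AddMonoidAlgebra R (T → ℤ) :=
  aeval fun i => if h : i ∈ T then tv R ⟨i, h⟩ else 0

omit [Fintype σ] in
lemma th_mem {T : Finset σ} {i : σ} (h : i ∈ T) : th R T (X i) = tv R ⟨i, h⟩ := by
  rw [th, aeval_X, dif_pos h]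

omit [Fintype σ] in
lemma th_notMem {T : Finset σ} {i : σ} (h : i ∉ T) : th R T (X i) = 0 := by
  rw [th, aeval_X, dif_neg h]

/-- The open strata of `V(I)`. -/
theorem isQ_torus (I : Ideal (MvPolynomial σ R)) (T : Finset σ) :
    IsQ (I ⊔ Ideal.span ((X : σ → MvPolynomial σ R) '' ((Finset.univ \ T : Finset σ) : Set σ)))
      (1 * ∏ i ∈ T, X i) ((Ideal.Quotient.mkₐ R (I.map (th R T))).comp (th R T)) where
  zero a ha := by
    have h1 : I ⊔ Ideal.span ((X : σ → MvPolynomial σ R) '' ((Finset.univ \ T : Finset σ) : Set σ)) ≤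
        (I.map (th R T)).comap (th R T) := by
      refine sup_le Ideal.le_comap_map (Ideal.span_le.mpr ?_)
      rintro _ ⟨i, hi, rfl⟩
      have hi' : i ∉ T := (Finset.mem_sdiff.mp hi).2
      change th R T (X i) ∈ I.map (th R T)
      rw [th_notMem hi']
      exact zero_mem _
    change Ideal.Quotient.mk (I.map (th R T)) (th R T a) = 0
    exact Ideal.Quotient.eq_zero_iff_mem.mpr (h1 ha)
  unit := by
    rw [AlgHom.comp_apply, map_mul, map_one, one_mul, map_prod]
    refine IsUnit.map _ ?_
    rw [IsUnit.prod_iff]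
    intro i hi
    rw [th_mem hi]
    exact tv_unit _
  lift E _ _ g hg hu := by
    rw [one_mul, map_prod] at hu
    have hu' : ∀ i ∈ T, IsUnit (g (X i)) := fun i hi =>
      isUnit_of_dvd_unit (Finset.dvd_prod_of_mem (fun i => g (X i)) hi) hu
    obtain ⟨f, hf⟩ := tor_lift (R := R) (T := T) (fun i => g (X i.1)) fun i => hu' i.1 i.2
    have hfg : f.comp (th R T) = g := by
      apply MvPolynomial.algHom_ext
      intro i
      rw [AlgHom.comp_apply]
      by_cases h : i ∈ T
      · rw [th_mem h, hf]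
      · rw [th_notMem h, map_zero]
        refine (hg (X i) (Ideal.mem_sup_right (Ideal.subset_span ⟨i, ?_, rfl⟩))).symm
        exact Finset.mem_coe.mpr (Finset.mem_sdiff.mpr ⟨Finset.mem_univ i, h⟩)
    refine ⟨Ideal.Quotient.liftₐ _ f fun a ha => ?_, ?_⟩
    · have h1 : I.map (th R T) ≤ RingHom.ker f := by
        rw [Ideal.map_le_iff_le_comap]
        intro b hb
        change f (th R T b) = 0
        rw [← AlgHom.comp_apply, hfg]
        exact hg b (Ideal.mem_sup_left hb)
      exact h1 ha
    · exact (show _ = f.comp (th R T) from rfl).trans hfg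
  ext E _ _ h h' e := by
    apply Ideal.Quotient.algHom_ext
    apply tor_ext
    rintro ⟨i, hi⟩
    have h1 : h (Ideal.Quotient.mk (I.map (th R T)) (th R T (X i))) =
        h' (Ideal.Quotient.mk (I.map (th R T)) (th R T (X i))) := DFunLike.congr_fun e (X i)
    rw [th_mem hi] at h1
    exact h1

variable {P : Sch R → Prop} (hP : Loc P)

include hP

/-- The stratification of a closed subscheme of affine space. -/
theorem p_strata (I : Ideal (MvPolynomial σ R)) (h : ∀ T : Finset σ,
    P (aff R (AddMonoidAlgebra R (T → ℤ) ⧸ I.map (th R T)))) :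
    P (aff R (MvPolynomial σ R ⧸ I)) := by
  have h1 : St P I 1 := st_strata hP (X : σ → MvPolynomial σ R) Finset.univ I 1 fun T _ =>
    st_of hP (isQ_torus I T) (h T)
  refine st_to hP (q := Ideal.Quotient.mkₐ R I) ?_ h1
  exact
  { zero := fun a ha => Ideal.Quotient.eq_zero_iff_mem.mpr ha
    unit := by rw [map_one]; exact isUnit_one
    lift := fun E _ _ g hg _ => ⟨Ideal.Quotient.liftₐ I g hg, by ext; rfl⟩
    ext := fun E _ _ f f' e => Ideal.Quotient.algHom_ext _ e }

/-- The open stratum from the closures of the strata. -/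
theorem p_open (I : Ideal (MvPolynomial σ R)) (h : ∀ T : Finset σ,
    P (aff R (MvPolynomial σ R ⧸ (I ⊔ Ideal.span ((X : σ → MvPolynomial σ R) '' (T : Set σ)))))) :
    P (aff R (AddMonoidAlgebra R (↥(Finset.univ : Finset σ) → ℤ) ⧸ I.map (th R Finset.univ))) := by
  have h1 : St P I (1 * ∏ i ∈ (Finset.univ : Finset σ), X i) :=
    st_torus hP (X : σ → MvPolynomial σ R) Finset.univ I 1 fun T _ => by
      refine st_of hP (q := Ideal.Quotient.mkₐ R _) ?_ (h T)
      exact
      { zero := fun a ha => Ideal.Quotient.eq_zero_iff_mem.mpr ha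
        unit := by rw [map_one]; exact isUnit_one
        lift := fun E _ _ g hg _ => ⟨Ideal.Quotient.liftₐ _ g hg, by ext; rfl⟩
        ext := fun E _ _ f f' e => Ideal.Quotient.algHom_ext _ e }
  have h2 := isQ_torus I Finset.univ
  rw [Finset.sdiff_self, Finset.coe_empty, Set.image_empty, Ideal.span_empty, sup_bot_eq] at h2
  exact st_to hP h2 h1

end Pool.Agent.V5helper52.FW
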